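import Pool.Graph.R_pool_sql_team_seeded_3997aac3.Q46.FR.Good2
import Pool.Graph.R_pool_sql_team_seeded_3997aac3.Q46.FR.All
import Pool.Graph.R_seed8.Y673.FM.LocG
import Pool.Graph.R_seed8.W401.Cheb.Frob

/-!
# The relation for the Frobenius elements of the absolute Galois group on the torsion of an elliptic curve
-/

set_option autoImplicit false

namespace Pool.Agent.H502.EC

open Pool.Agent.H901R3.MS Pool.Agent.Q46.FR Pool.Agent.Y673.Loc NumberField IsDedekindDomain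
open Pool.Agent.W401.Cheb Pool.Agent.W275.FM Pool.Agent.W275.FMK Pool.Agent.Y673.FM
open WeierstrassCurve

section
variable {K L : Type} [Field K] [NumberField K] [Field L] [NumberField L] [Algebra K L] [IsGalois K L]

/-- the data `FD` for a given Frobenius element -/
theorem fd_of (v : HeightOneSpectrum (𝓞 K)) (w : HeightOneSpectrum (𝓞 L))
    (hw : w.asIdeal.LiesOver v.asIdeal) {σ : L ≃ₐ[K] L} (hσ : IsArithFrobAt (𝓞 K) σ w.asIdeal) :
    ∃ (k : Type) (_ : Field k) (u : Place L k) (φ : (𝓞 K ⧸ v.asIdeal) →+* k), FD v w u σ φ := by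
  have hover : v.asIdeal = w.asIdeal.under (𝓞 K) := hw.over
  have hφ : ∀ a ∈ v.asIdeal, Pool.Agent.Q16.FR.FRB.phi0 (K := K) w a = 0 := by
    intro a ha
    have h1 : algebraMap (𝓞 K) (𝓞 L) a ∈ w.asIdeal := by
      rw [hover] at ha
      exact ha
    change Ideal.Quotient.mk (Pool.Agent.Q16.FR.FRB.mm w) _ = 0
    rw [Ideal.Quotient.eq_zero_iff_mem]
    exact (w.valuation_lt_one_iff_mem _).2 h1
  have hfin : Finite (𝓞 K ⧸ v.asIdeal) := inferInstance
  let _ : Field (𝓞 K ⧸ v.asIdeal) := Ideal.Quotient.field v.asIdeal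
  have := Fintype.ofFinite (𝓞 K ⧸ v.asIdeal)
  obtain ⟨p, hch, n, hp, hpn⟩ := FiniteField.card' (𝓞 K ⧸ v.asIdeal)
  refine ⟨Pool.Agent.Q16.FR.FRB.kk w, inferInstance, Pool.Agent.Q16.FR.FRB.plc w,
    Ideal.Quotient.lift v.asIdeal (Pool.Agent.Q16.FR.FRB.phi0 w) hφ, ?_, ?_, ?_, ?_,
    ?_, p, n, hp, ?_, n.pos, ?_⟩
  · intro x
    rw [Pool.Agent.Q16.FR.FRB.G0_iff]
    rfl
  · intro x hx
    rw [Pool.Agent.Q16.FR.FRB.G0_iff] at hx
    rw [Pool.Agent.Q16.FR.FRB.G1_iff]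
    exact Pool.Agent.Q16.FR.FRB.r_zero_iff w hx
  · intro x hx
    rw [Pool.Agent.Q16.FR.FRB.G0_iff] at hx
    rw [Pool.Agent.Q16.FR.FRB.frob_all hσ x hx, ← hover]
    rfl
  · intro x hx
    exact Pool.Agent.Q16.FR.FRB.v_smul hσ x hx
  · intro x
    rw [Ideal.Quotient.lift_mk]
    exact (Pool.Agent.Q16.FR.FRB.plc w).r_of
      (Pool.Agent.Q16.FR.FRB.val_int w (algebraMap (𝓞 K) (𝓞 L) x))
  · exact charP_of_injective_ringHom
      (Ideal.Quotient.lift v.asIdeal (Pool.Agent.Q16.FR.FRB.phi0 w) hφ).injective p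
  · change Nat.card (𝓞 K ⧸ v.asIdeal) = _
    rw [Nat.card_eq_fintype_card]
    exact hpn

/-- the restriction of a Frobenius element of the absolute Galois group -/
theorem exists_fd (v : HeightOneSpectrum (𝓞 K)) {x : GK K} (hx : IsFrob v x)
    (ι : L →ₐ[K] AlgebraicClosure K) {τ : L ≃ₐ[K] L} (hτ : ∀ y, ι (τ y) = x (ι y)) :
    ∃ (w : HeightOneSpectrum (𝓞 L)) (k : Type) (_ : Field k) (u : Place L k)
      (φ : (𝓞 K ⧸ v.asIdeal) →+* k), FD v w u τ φ := by
  obtain ⟨Q, hQm, hQv, hQ⟩ := hx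
  let f : 𝓞 L →+* 𝓞 (AlgebraicClosure K) := RingOfIntegers.mapRingHom (ι : L →+* AlgebraicClosure K)
  have hf : ∀ y : 𝓞 L, ((f y : 𝓞 (AlgebraicClosure K)) : AlgebraicClosure K) = ι (y : L) := fun _ => rfl
  have hfa : ∀ a : 𝓞 K, f (algebraMap (𝓞 K) (𝓞 L) a) =
      algebraMap (𝓞 K) (𝓞 (AlgebraicClosure K)) a := by
    intro a
    apply RingOfIntegers.ext
    rw [hf]
    exact ι.commutes (a : K)
  have hcomap : (Q.comap f).comap (algebraMap (𝓞 K) (𝓞 L)) = v.asIdeal := by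
    rw [← hQv]
    ext a
    rw [Ideal.mem_comap, Ideal.mem_comap, Ideal.mem_comap, hfa]
  have hprime : (Q.comap f).IsPrime := by
    have := hQm.isPrime
    exact Ideal.comap_isPrime f Q
  have hne : Q.comap f ≠ ⊥ := by
    intro h
    obtain ⟨a, ha, ha0⟩ := (Submodule.ne_bot_iff _).1 v.ne_bot
    have h1 : algebraMap (𝓞 K) (𝓞 L) a ∈ Q.comap f := by
      rw [← Ideal.mem_comap, hcomap]; exact ha
    rw [h, Ideal.mem_bot] at h1
    exact ha0 ((map_eq_zero_iff _ (FaithfulSMul.algebraMap_injective (𝓞 K) (𝓞 L))).1 h1)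
  let w : HeightOneSpectrum (𝓞 L) := ⟨Q.comap f, hprime, hne⟩
  have hw : w.asIdeal.LiesOver v.asIdeal := ⟨hcomap.symm⟩
  have hcard : Nat.card (𝓞 K ⧸ w.asIdeal.under (𝓞 K)) = Ideal.absNorm v.asIdeal := by
    have : w.asIdeal.under (𝓞 K) = v.asIdeal := hcomap
    rw [this, Ideal.absNorm_apply, Submodule.cardQuot_apply]
  have hF : IsArithFrobAt (𝓞 K) τ w.asIdeal := by
    intro y
    change f (τ • y - y ^ _) ∈ Q
    rw [hcard, map_sub, map_pow]
    have h1 : f (τ • y) = x • f y := by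
      apply RingOfIntegers.ext
      rw [hf, Pool.Agent.W401.Frob.coe_smul, hf]
      exact hτ (y : L)
    rw [h1]
    exact hQ (f y)
  obtain ⟨k, ik, u, φ, h⟩ := fd_of v w hw hF
  exact ⟨w, k, ik, u, φ, h⟩

end

section
variable {K : Type} [Field K] [NumberField K]

open scoped Classical in
/-- a field which contains the coordinates of the points of order `n` -/
theorem exists_field (A B : K) (hD : 4 * A ^ 3 + 27 * B ^ 2 ≠ 0) {n : ℕ} (hn : 1 ≤ n) :
    ∃ (L : Type) (_ : Field L) (_ : NumberField L) (_ : Algebra K L) (_ : IsGalois K L)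
      (ι : L →ₐ[K] AlgebraicClosure K), ∀ z ∈ (crd A B n : Set (AlgebraicClosure K)), ∃ x, ι x = z := by
  obtain ⟨fin1, -⟩ := Mul.tor (AlgebraicClosure K) (ca (AlgebraicClosure K) A)
    (ca (AlgebraicClosure K) B) (disc_ca hD) n hn
  obtain ⟨L, iF, iN, iA, iG, ι, h1, -⟩ := Pool.Agent.W150.FMK.Fld.main K (crd A B n)
    (crd_finite A B n fin1) (fun σ z hz =>
      crd_map A B n (σ : AlgebraicClosure K →ₐ[K] AlgebraicClosure K) hz)
  exact ⟨L, iF, iN, iA, iG, ι, h1⟩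

omit [NumberField K] in
theorem coe_disc (A B : 𝓞 K) : ((4 * A ^ 3 + 27 * B ^ 2 : 𝓞 K) : K) =
    4 * (A : K) ^ 3 + 27 * (B : K) ^ 2 := by
  simp only [map_add, map_mul, map_pow, map_ofNat]

theorem ab_tor {G : Type*} [AddCommGroup G] {p m : ℕ} (hm : p = 2 * m + 1) {R0 R1 R2 : G} {a q : ℤ}
    (h0 : p • R0 = 0) (h1 : p • R1 = 0) (h2 : p • R2 = 0)
    (h : (2 : ℤ) • (R2 - a • R1 + q • R0) = 0) : R2 - a • R1 + q • R0 = 0 := by
  set T := R2 - a • R1 + q • R0 with hT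
  have hpT : p • T = 0 := by
    rw [hT, smul_add, smul_sub, smul_comm p a, smul_comm p q, h0, h1, h2]
    simp
  have h3 : (2 : ℕ) • T = 0 := by
    rw [← h, two_smul, two_smul]
  have h4 : T = p • T - m • ((2 : ℕ) • T) := by
    rw [hm, add_smul, one_smul, smul_smul, mul_comm m 2, add_sub_cancel_left]
  rw [h4, hpT, h3, smul_zero, sub_zero]

omit [NumberField K] in
/-- restriction to a Galois extension -/
theorem exists_res {L : Type} [Field L] [Algebra K L] [Normal K L] (ι : L →ₐ[K] AlgebraicClosure K)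
    (x : GK K) : ∃ τ : L ≃ₐ[K] L, ∀ y, ι (τ y) = x (ι y) := by
  let _ : Algebra L (AlgebraicClosure K) := ι.toRingHom.toAlgebra
  have : IsScalarTower K L (AlgebraicClosure K) := IsScalarTower.of_algebraMap_eq fun a =>
    (ι.commutes a).symm
  refine ⟨x.restrictNormal L, fun y => ?_⟩
  exact x.restrictNormal_commutes L y

open scoped Classical in
/-- **the relation on the torsion points over the algebraic closure** -/
theorem rel_EP (A B : 𝓞 K) (v : HeightOneSpectrum (𝓞 K)) (h2 : (2 : 𝓞 K) ∉ v.asIdeal)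
    (hd : 4 * A ^ 3 + 27 * B ^ 2 ∉ v.asIdeal) {p : ℕ} (hp : p.Prime) (hp2 : p ≠ 2)
    (hpv : (p : 𝓞 K) ∉ v.asIdeal) {x : GK K} (hx : IsFrob v x) (P : EP (A : K) (B : K))
    (hP : p • P = 0) :
    act (A : K) (B : K) x (act (A : K) (B : K) x P) -
      ((qv v : ℤ) + 1 - pts v A B) • act (A : K) (B : K) x P + (qv v : ℤ) • P = 0 := by
  have hD : 4 * (A : K) ^ 3 + 27 * (B : K) ^ 2 ≠ 0 := by
    intro h
    apply hd
    have : 4 * A ^ 3 + 27 * B ^ 2 = 0 := by
      apply RingOfIntegers.ext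
      rw [coe_disc, h]
      rfl
    rw [this]
    exact v.asIdeal.zero_mem
  obtain ⟨L, iF, iN, iA, iG, ι, hι⟩ := exists_field (A : K) (B : K) hD hp.one_le
  obtain ⟨τ, hτ⟩ := exists_res ι x
  obtain ⟨w, k, ik, u, φ, F⟩ := exists_fd v hx ι hτ
  have s : Sc (A : K) (B : K) (algebraMap K L A) (algebraMap K L B) (1 : L) :=
    ⟨one_ne_zero, by ring, by ring⟩
  obtain ⟨Θ, -, hΘ, heq⟩ := exists_Th ι s hι
  obtain ⟨P', hP', rfl⟩ := hΘ P hP
  have key := F.rel A B h2 hd hpv s hPAR hCOMP hCOUNT hEVP P' hP'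
  set a : ℤ := (qv v : ℤ) + 1 - pts v A B with ha
  have h1 := congrArg Θ key
  rw [map_zero, map_zsmul, map_add, map_sub, map_zsmul, map_zsmul, heq τ x hτ, heq τ x hτ] at h1
  have e1 : p • act (A : K) (B : K) x (Θ P') = 0 := by rw [← map_nsmul, hP, map_zero]
  have e2 : p • act (A : K) (B : K) x (act (A : K) (B : K) x (Θ P')) = 0 := by
    rw [← map_nsmul, e1, map_zero]
  obtain ⟨m, hm⟩ : ∃ m : ℕ, p = 2 * m + 1 := (hp.odd_of_ne_two hp2)
  exact ab_tor hm hP e1 e2 h1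

end

end Pool.Agent.H502.EC
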