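import Pool.Agent.H502.EC.A9

/-!
# The two equivalences
-/

set_option autoImplicit false

namespace Pool.Agent.H502.EC

open Pool.Agent.H901R3.MS Pool.Agent.Q46.FR Pool.Agent.Y673.Loc NumberField IsDedekindDomain
open Pool.Agent.W401.Cheb Pool.Agent.W275.FM Pool.Agent.W275.FMK Pool.Agent.Y673.FM
open WeierstrassCurve Matrix Filter Topology Pool.Agent.H502.SM

variable {K : Type} [Field K] [NumberField K]

open scoped Classical in
/-- a Galois equivariant isomorphism of the points of order `p` -/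
def IsoP (A B A' B' : K) (p : ℕ) : Prop :=
  ∃ f : TT A B p ≃+ TT A' B' p, ∀ x R, f (aa A B p x R) = aa A' B' p x (f R)

theorem coe_eq_zero' {a : 𝓞 K} : (a : K) = 0 ↔ a = 0 := by
  constructor
  · intro h; exact_mod_cast h
  · rintro rfl; rfl

/-- **The exact threshold, as an equivalence.** -/
theorem isoP_iff {A B A' B' : 𝓞 K} (hD : 4 * A ^ 3 + 27 * B ^ 2 ≠ 0)
    (hD' : 4 * A' ^ 3 + 27 * B' ^ 2 ≠ 0) {p : ℕ} [hp : Fact p.Prime] (h5 : 5 ≤ p)
    (hSL : HasSLp (A : K) (B : K) p) :
    IsoP (A : K) (B : K) (A' : K) (B' : K) p ↔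
      UGT {v : HeightOneSpectrum (𝓞 K) | (p : ℤ) ∣ (pts v A B : ℤ) - pts v A' B'}
        ((p : ℝ) / (2 * (p - 1))) := by
  have hp' : (5 : ℝ) ≤ p := by exact_mod_cast h5
  constructor
  · rintro ⟨f, hf⟩
    apply ugt_of_finite
    · refine ((finite_bad hD (p := p) hp.out.ne_zero).union
        (finite_bad hD' (p := p) hp.out.ne_zero)).subset ?_
      intro v hv
      by_contra hcon
      rw [Set.mem_union, not_or] at hcon
      have hv1 : GoodPl A B p v := by
        by_contra h; exact hcon.1 h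
      have hv2 : GoodPl A' B' p v := by
        by_contra h; exact hcon.2 h
      obtain ⟨x, hx⟩ := Pool.Agent.W401.Frob.exists_frob v
      exact hv (dvd_of_congr (by omega) hD' f hv1 hv2 hx (hf x))
    · rw [div_lt_one (by linarith)]
      linarith
  · intro h
    obtain ⟨δ, hδ, hG⟩ := h.freq (by
      apply div_nonneg <;> linarith)
    exact main_congr_two hD hD' h5 hSL hδ hG

/-- **Chebotarev for a quadratic extension.** -/
theorem dens_half (s : AlgebraicClosure K) (hs : ∀ x : GK K, x s = s ∨ x s = -s) :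
    ∃ L : ℝ, 1 / 2 ≤ L ∧
      Tendsto (dens (fun v : HeightOneSpectrum (𝓞 K) => ∃ x : GK K, x s = s ∧ IsFrob v x)) atTop (𝓝 L) := by
  let U : Subgroup (GK K) :=
    { carrier := {x | x s = s}
      one_mem' := rfl
      mul_mem' := fun {x y} hx hy => by
        change x (y s) = s
        rw [hy, hx]
      inv_mem' := fun {x} hx => by
        change x⁻¹ s = s
        have h1 : x⁻¹ (x s) = s := by
          change (x⁻¹ * x) s = s
          rw [inv_mul_cancel]; rfl
        rw [hx] at h1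
        exact h1 }
  have hU : ∀ x : GK K, x ∈ U ↔ x s = s := fun x => Iff.rfl
  have hconj : ∀ x ∈ U, ∀ y : GK K, y * x * y⁻¹ ∈ U := by
    intro x hx y
    rw [hU] at hx ⊢
    change y (x (y⁻¹ s)) = s
    have h1 : y (y⁻¹ s) = s := by
      change (y * y⁻¹) s = s
      rw [mul_inv_cancel]; rfl
    have h2 : x (y⁻¹ s) = y⁻¹ s := by
      rcases hs y⁻¹ with h | h
      · rw [h, hx]
      · rw [h, map_neg, hx]
    rw [h2, h1]
  haveI : U.Normal := ⟨hconj⟩
  have hopen : IsOpen (U : Set (GK K)) := by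
    haveI : FiniteDimensional K (IntermediateField.adjoin K {s}) :=
      IntermediateField.adjoin.finiteDimensional (Algebra.IsIntegral.isIntegral s)
    refine Subgroup.isOpen_mono (H₁ := (IntermediateField.adjoin K {s}).fixingSubgroup) ?_
      (IntermediateField.fixingSubgroup_isOpen _)
    intro x hx
    rw [IntermediateField.mem_fixingSubgroup_iff] at hx
    exact hx s (IntermediateField.mem_adjoin_simple_self K s)
  have h := Pool.Agent.W528.Ord.chebK K U hopen (U : Set (GK K)) hconj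
    (fun x hx u hu => U.mul_mem hx hu)
  have h1 : (QuotientGroup.mk : GK K → GK K ⧸ U) '' (U : Set (GK K)) = {1} := by
    ext q
    constructor
    · rintro ⟨x, hx, rfl⟩
      exact (QuotientGroup.eq_one_iff x).2 hx
    · rintro rfl
      exact ⟨1, U.one_mem, rfl⟩
  have hfin : Finite (GK K ⧸ U) := Subgroup.quotient_finite_of_isOpen _ hopen
  have h2 : Nat.card (GK K ⧸ U) ≤ 2 := by
    classical
    let g : GK K ⧸ U → Bool := fun q => decide ((Quotient.out q : GK K) s = s)
    have hg : Function.Injective g := by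
      intro q q' hqq
      have h3 : ((Quotient.out q : GK K) s = s) ↔ ((Quotient.out q' : GK K) s = s) := by
        have := hqq
        simp only [g, decide_eq_decide] at this
        exact this
      have h4 : (Quotient.out q : GK K) s = (Quotient.out q' : GK K) s := by
        rcases hs (Quotient.out q : GK K) with h | h
        · rw [h, h3.1 h]
        · rcases hs (Quotient.out q' : GK K) with h' | h'
          · rw [h3.2 h', h']
          · rw [h, h']
      have h5 : (QuotientGroup.mk (Quotient.out q : GK K) : GK K ⧸ U) =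
          QuotientGroup.mk (Quotient.out q' : GK K) := by
        rw [QuotientGroup.eq, hU]
        change (Quotient.out q : GK K)⁻¹ ((Quotient.out q' : GK K) s) = s
        rw [← h4]
        change ((Quotient.out q : GK K)⁻¹ * (Quotient.out q : GK K)) s = s
        rw [inv_mul_cancel]; rfl
      rwa [QuotientGroup.out_eq', QuotientGroup.out_eq'] at h5
    have := Nat.card_le_card_of_injective g hg
    simpa using this
  have h3 : 0 < Nat.card (GK K ⧸ U) := Nat.card_pos
  refine ⟨_, ?_, h⟩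
  rw [h1, Set.ncard_singleton, Nat.cast_one]
  apply one_div_le_one_div_of_le
  · exact_mod_cast h3
  · exact_mod_cast h2

open scoped Classical in
/-- a congruence with a quadratic twist gives half of the places -/
theorem twist_half {A B A' B' : 𝓞 K} (hD : 4 * A ^ 3 + 27 * B ^ 2 ≠ 0)
    (hD' : 4 * A' ^ 3 + 27 * B' ^ 2 ≠ 0) {p : ℕ} [hp : Fact p.Prime] (h5 : 5 ≤ p)
    (h0 : ∃ d : 𝓞 K, d ≠ 0 ∧
      IsoP ((A * d ^ 2 : 𝓞 K) : K) ((B * d ^ 3 : 𝓞 K) : K) (A' : K) (B' : K) p)
    {c : ℝ} (hc : c < 1 / 2) :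
    UGT {v : HeightOneSpectrum (𝓞 K) | (p : ℤ) ∣ (pts v A B : ℤ) - pts v A' B'} c := by
  obtain ⟨d, hd, g, hg⟩ := h0
  obtain ⟨s, hs⟩ : ∃ s : AlgebraicClosure K, s ^ 2 = algebraMap K (AlgebraicClosure K) d :=
    IsAlgClosed.exists_pow_nat_eq _ two_pos
  have hs0 : s ≠ 0 := by
    rintro rfl
    rw [zero_pow two_ne_zero] at hs
    have h1 : (d : K) = 0 := (map_eq_zero _).1 hs.symm
    exact hd (coe_eq_zero'.1 h1)
  have hsx : ∀ x : GK K, x s = s ∨ x s = -s := by
    intro x
    apply sq_eq_sq_iff_eq_or_eq_neg.1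
    rw [← map_pow, hs, AlgEquiv.commutes]
  obtain ⟨Θ, hΘ, hΘx⟩ := exists_tw (A : K) (B : K) ((A * d ^ 2 : 𝓞 K) : K)
    ((B * d ^ 3 : 𝓞 K) : K) s hs0
    (by
      unfold ca
      rw [show (s ^ 4) = (s ^ 2) ^ 2 by ring, hs, ← map_pow, ← map_mul]
      congr 1
      change algebraMap (𝓞 K) K (A * d ^ 2) = (algebraMap (𝓞 K) K d) ^ 2 * algebraMap (𝓞 K) K A
      rw [map_mul, map_pow, mul_comm])
    (by
      unfold ca
      rw [show (s ^ 6) = (s ^ 2) ^ 3 by ring, hs, ← map_pow, ← map_mul]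
      congr 1
      change algebraMap (𝓞 K) K (B * d ^ 3) = (algebraMap (𝓞 K) K d) ^ 3 * algebraMap (𝓞 K) K B
      rw [map_mul, map_pow, mul_comm])
  obtain ⟨θ, hθ⟩ := exists_restrict p Θ hΘ
  obtain ⟨L, hL, hlim⟩ := dens_half s hsx
  -- remove the bad places
  set Bad : Set (HeightOneSpectrum (𝓞 K)) := {v | ¬ GoodPl A B p v} ∪ {v | ¬ GoodPl A' B' p v} with hBad
  have hBadfin : Bad.Finite := (finite_bad hD (p := p) hp.out.ne_zero).union
      (finite_bad hD' (p := p) hp.out.ne_zero)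
  set P : HeightOneSpectrum (𝓞 K) → Prop := fun v => ∃ x : GK K, x s = s ∧ IsFrob v x with hP
  have h1 : Tendsto (dens (fun v => P v ∧ v ∉ Bad)) atTop (𝓝 L) := by
    have h2 := dens_finite hBadfin
    have h3 : ∀ N, dens P N - dens (fun v => v ∈ Bad) N ≤ dens (fun v => P v ∧ v ∉ Bad) N := by
      intro N
      have h4 := Pool.Agent.W528.Ord.dens_or (fun v => P v ∧ v ∉ Bad) (fun v => v ∈ Bad) N
      have h5 : dens P N ≤ dens (fun v => (P v ∧ v ∉ Bad) ∨ v ∈ Bad) N := by
        apply Pool.Agent.W528.Ord.dens_mono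
        intro v hv
        by_cases h : v ∈ Bad
        · exact Or.inr h
        · exact Or.inl ⟨hv, h⟩
      linarith
    have h6 : ∀ N, dens (fun v => P v ∧ v ∉ Bad) N ≤ dens P N := by
      intro N
      exact Pool.Agent.W528.Ord.dens_mono (fun _ h => h.1) N
    have h8 := hlim.sub h2
    rw [sub_zero] at h8
    exact tendsto_of_tendsto_of_tendsto_of_le_of_le h8 hlim h3 h6
  have h2 : UGT {v : HeightOneSpectrum (𝓞 K) | P v ∧ v ∉ Bad} c :=
    ugt_of_tendsto h1 (lt_of_lt_of_le hc hL)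
  refine h2.mono finite_absNorm ?_
  rintro v ⟨⟨x, hxs, hx⟩, hvB⟩
  rw [hBad, Set.mem_union, not_or] at hvB
  have hv1 : GoodPl A B p v := by
    by_contra h; exact hvB.1 h
  have hv2 : GoodPl A' B' p v := by
    by_contra h; exact hvB.2 h
  refine dvd_of_congr (by omega) hD' (θ.trans g) hv1 hv2 hx ?_
  intro R
  change g (θ (aa (A : K) (B : K) p x R)) = aa (A' : K) (B' : K) p x (g (θ R))
  rw [← hg]
  congr 1
  apply Subtype.ext
  rw [hθ]
  change Θ (act _ _ x R) = act _ _ x (θ R : EP _ _)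
  rw [(hΘx x).1 hxs, hθ]

open scoped Classical in
/-- **Small density, as an equivalence.** -/
theorem twist_iff {A B A' B' : 𝓞 K} (hD : 4 * A ^ 3 + 27 * B ^ 2 ≠ 0)
    (hD' : 4 * A' ^ 3 + 27 * B' ^ 2 ≠ 0) {p : ℕ} [hp : Fact p.Prime] (h5 : 5 ≤ p)
    (hSL : HasSLp (A : K) (B : K) p) :
    (∃ d : 𝓞 K, d ≠ 0 ∧ IsoP ((A * d ^ 2 : 𝓞 K) : K) ((B * d ^ 3 : 𝓞 K) : K) (A' : K) (B' : K) p) ↔
      UGT {v : HeightOneSpectrum (𝓞 K) | (p : ℤ) ∣ (pts v A B : ℤ) - pts v A' B'}
        ((1 : ℝ) / (p - 1)) := by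
  have hp' : (5 : ℝ) ≤ p := by exact_mod_cast h5
  constructor
  · intro h
    refine twist_half hD hD' h5 h ?_
    apply one_div_lt_one_div_of_lt (by norm_num)
    linarith
  · intro h
    obtain ⟨δ, hδ, hG⟩ := h.freq (by
      apply div_nonneg <;> linarith)
    exact main_congr_twist hD hD' h5 hSL hδ hG

end Pool.Agent.H502.EC
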