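import Pool.Agent.H502.EC.A10

/-!
# Hecke modules
-/

set_option autoImplicit false

namespace Pool.Agent.H502.EC

open Pool.Agent.H901R3.MS Pool.Agent.Q46.FR Pool.Agent.Y673.Loc NumberField IsDedekindDomain
open Pool.Agent.W401.Cheb Pool.Agent.W275.FM Pool.Agent.W275.FMK Pool.Agent.Y673.FM
open WeierstrassCurve Matrix Filter Topology Pool.Agent.H502.SM

/-! ### Simultaneous eigenvectors -/

section linear
variable {k V ι : Type*} [Field k] [IsAlgClosed k] [AddCommGroup V] [Module k V]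
  [FiniteDimensional k V]

theorem exists_simul (T : ι → V →ₗ[k] V) (hT : ∀ i j v, T i (T j v) = T j (T i v)) :
    ∀ (n : ℕ) (W : Submodule k V), Module.finrank k W = n → W ≠ ⊥ → (∀ i, ∀ w ∈ W, T i w ∈ W) →
      ∃ w ∈ W, w ≠ 0 ∧ ∃ a : ι → k, ∀ i, T i w = a i • w := by
  intro n
  induction n using Nat.strong_induction_on with
  | _ n ih =>
    intro W hn hW hst
    by_cases hsc : ∀ i, ∃ a : k, ∀ w ∈ W, T i w = a • w
    · choose a ha using hsc
      obtain ⟨w, hw, hw0⟩ := W.ne_bot_iff.1 hW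
      exact ⟨w, hw, hw0, a, fun i => ha i w hw⟩
    · push Not at hsc
      obtain ⟨i, hi⟩ := hsc
      have hnt : Nontrivial W := Submodule.nontrivial_iff_ne_bot.2 hW
      let f : W →ₗ[k] W := (T i).restrict (fun w hw => hst i w hw)
      obtain ⟨μ, hμ⟩ := Module.End.exists_eigenvalue f
      obtain ⟨w₀, hw₀⟩ := hμ.exists_hasEigenvector
      have hw₁ : T i (w₀ : V) = μ • (w₀ : V) := congrArg Subtype.val hw₀.apply_eq_smul
      let W' : Submodule k V := W ⊓ LinearMap.ker (T i - μ • LinearMap.id)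
      have hmem : ∀ w, w ∈ W' ↔ w ∈ W ∧ T i w = μ • w := by
        intro w
        rw [Submodule.mem_inf, LinearMap.mem_ker, LinearMap.sub_apply, LinearMap.smul_apply,
          LinearMap.id_apply, sub_eq_zero]
      have hne : W' ≠ ⊥ := by
        rw [Submodule.ne_bot_iff]
        exact ⟨w₀, (hmem _).2 ⟨w₀.2, hw₁⟩, fun h => hw₀.2 (Subtype.ext h)⟩
      have hlt : W' < W := by
        refine lt_of_le_of_ne inf_le_left fun h => ?_
        obtain ⟨w, hw, hne'⟩ := hi μ
        rw [← h] at hw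
        exact hne' ((hmem w).1 hw).2
      obtain ⟨w, hw, hw0, a, ha⟩ := ih _ (by rw [← hn]; exact Submodule.finrank_lt_finrank_of_lt hlt)
        W' rfl hne (by
          intro j w hw
          rw [hmem] at hw ⊢
          refine ⟨hst j w hw.1, ?_⟩
          rw [hT, hw.2, map_smul])
      exact ⟨w, ((hmem w).1 hw).1, hw0, a, ha⟩

/-- a nonzero vector on which some of the operators are scalars can be replaced by a simultaneous
eigenvector with the same eigenvalues for these operators -/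
theorem exists_eigen (T : ι → V →ₗ[k] V) (hT : ∀ i j v, T i (T j v) = T j (T i v)) (S : Set ι)
    (t : ι → k) {c : V} (hc : c ≠ 0) (h : ∀ i ∈ S, T i c = t i • c) :
    ∃ c' : V, c' ≠ 0 ∧ ∃ a : ι → k, (∀ i, T i c' = a i • c') ∧ ∀ i ∈ S, a i = t i := by
  let W : Submodule k V :=
    { carrier := {w | ∀ i ∈ S, T i w = t i • w}
      add_mem' := fun {v w} hv hw i hi => by rw [map_add, hv i hi, hw i hi, smul_add]
      zero_mem' := fun i _ => by rw [map_zero, smul_zero]
      smul_mem' := fun b w hw i hi => by rw [map_smul, hw i hi, smul_comm] }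
  have hW : W ≠ ⊥ := by
    rw [Submodule.ne_bot_iff]
    exact ⟨c, h, hc⟩
  obtain ⟨w, hw, hw0, a, ha⟩ := exists_simul T hT _ W rfl hW (by
    intro i w hw j hj
    rw [← hT, hw j hj, map_smul])
  refine ⟨w, hw0, a, ha, fun i hi => ?_⟩
  have h1 : a i • w = t i • w := (ha i).symm.trans (hw i hi)
  by_contra hne
  have h2 : (a i - t i) • w = 0 := by rw [sub_smul, h1, sub_self]
  exact hw0 ((smul_eq_zero.1 h2).resolve_left (sub_ne_zero.2 hne))

end linear

variable {K : Type} [Field K] [NumberField K]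

/-- two functions which are constant modulo open subgroups and agree at the Frobenius elements -/
theorem eq_of_frob {X : Type*} (U : Subgroup (GK K)) [U.Normal] (hU : IsOpen (U : Set (GK K)))
    (f g : GK K → X) (hf : ∀ x, ∀ u ∈ U, f (x * u) = f x) (hg : ∀ x, ∀ u ∈ U, g (x * u) = g x)
    (bad : Set (HeightOneSpectrum (𝓞 K))) (hbad : bad.Finite)
    (h : ∀ v ∉ bad, ∀ x, IsFrob v x → f x = g x) (y : GK K) : f y = g y := by
  obtain ⟨v, hv, x, hx, hxy⟩ := exists_frob_near U hU y bad hbad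
  have h1 : x⁻¹ * y ∈ U := QuotientGroup.eq.1 hxy
  have h2 : x * (x⁻¹ * y) = y := mul_inv_cancel_left _ _
  rw [← h2, hf x _ h1, hg x _ h1]
  exact h v hv x hx

open scoped Classical in
/-- the trace on the points of order `p` of a twisted curve -/
theorem trace_twist {A B A' B' : K} {p : ℕ} [hp : Fact p.Prime]
    {e : TT A B p ≃+ (Fin 2 → ZMod p)} {ρ : GK K →* GL (Fin 2) (ZMod p)}
    (he : ∀ x P, e (aa A B p x P) = (ρ x).val *ᵥ e P)
    {e' : TT A' B' p ≃+ (Fin 2 → ZMod p)} {ρ' : GK K →* GL (Fin 2) (ZMod p)}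
    (he' : ∀ x P, e' (aa A' B' p x P) = (ρ' x).val *ᵥ e' P) {s : ℤ} {x : GK K}
    (g : TT A B p ≃+ TT A' B' p) (hg : ∀ R, g (aa A B p x R) = s • aa A' B' p x (g R)) :
    (ρ x).val.trace = (s : ZMod p) * (ρ' x).val.trace := by
  let m : (Fin 2 → ZMod p) ≃+ (Fin 2 → ZMod p) := (e.symm.trans g).trans e'
  have hm : ∀ c, m ((ρ x).val *ᵥ c) = (s : ZMod p) • ((ρ' x).val *ᵥ m c) := by
    intro c
    obtain ⟨R, rfl⟩ := e.surjective c
    change e' (g (e.symm ((ρ x).val *ᵥ e R))) = (s : ZMod p) • ((ρ' x).val *ᵥ e' (g (e.symm (e R))))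
    rw [← he, AddEquiv.symm_apply_apply, AddEquiv.symm_apply_apply, hg, map_zsmul, he',
      ← Int.cast_smul_eq_zsmul (ZMod p)]
  let L : (Fin 2 → ZMod p) ≃ₗ[ZMod p] (Fin 2 → ZMod p) :=
    { (m : (Fin 2 → ZMod p) →+ (Fin 2 → ZMod p)).toZModLinearMap p with
      invFun := m.symm
      left_inv := m.left_inv
      right_inv := m.right_inv }
  have hL : ∀ c, L c = m c := fun c => rfl
  have h1 : L.conj (Matrix.toLin' (ρ x).val) = (s : ZMod p) • Matrix.toLin' (ρ' x).val := by
    apply LinearMap.ext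
    intro c
    rw [LinearEquiv.conj_apply_apply, LinearMap.smul_apply, Matrix.toLin'_apply, Matrix.toLin'_apply,
      hL, hm, ← hL, LinearEquiv.apply_symm_apply]
  have h2 := LinearMap.trace_conj' (Matrix.toLin' (ρ x).val) L
  rw [h1, map_smul, Matrix.trace_toLin'_eq, Matrix.trace_toLin'_eq, smul_eq_mul] at h2
  exact h2.symm

end Pool.Agent.H502.EC
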