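import Pool.Agent.H502.EC.A11

/-!
# Classes on which the Hecke operators act through the traces on the points of order `p`
-/

set_option autoImplicit false

namespace Pool.Agent.H502.EC

open Pool.Agent.H901R3.MS Pool.Agent.Q46.FR Pool.Agent.Y673.Loc NumberField IsDedekindDomain
open Pool.Agent.W401.Cheb Pool.Agent.W275.FM Pool.Agent.W275.FMK Pool.Agent.Y673.FM
open WeierstrassCurve Matrix Filter Topology Pool.Agent.H502.SM

variable {K : Type} [Field K] [NumberField K]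

open scoped Classical in
/-- the points of a quadratic twist -/
theorem exists_twist_map (A B : 𝓞 K) (p : ℕ) (ε : GK K →* ℤˣ) (hε : IsOpen (ε.ker : Set (GK K))) :
    ∃ d : 𝓞 K, d ≠ 0 ∧ ∃ g : TT (A : K) (B : K) p ≃+
        TT ((A * d ^ 2 : 𝓞 K) : K) ((B * d ^ 3 : 𝓞 K) : K) p,
      ∀ x R, g (aa (A : K) (B : K) p x R) = ((ε x : ℤˣ) : ℤ) •
        aa ((A * d ^ 2 : 𝓞 K) : K) ((B * d ^ 3 : 𝓞 K) : K) p x (g R) := by
  obtain ⟨d, s, hd, hs, hx⟩ := exists_sqrt_int ε hε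
  have hs0 : s ≠ 0 := by
    rintro rfl
    rw [zero_pow two_ne_zero] at hs
    have h1 : (d : K) = 0 := (map_eq_zero _).1 hs.symm
    exact hd (by exact_mod_cast h1)
  obtain ⟨Θ, hΘ, hΘx⟩ := exists_tw (A : K) (B : K) ((A * d ^ 2 : 𝓞 K) : K) ((B * d ^ 3 : 𝓞 K) : K) s hs0
    (by
      unfold ca
      rw [show (s ^ 4) = (s ^ 2) ^ 2 by ring, hs, ← map_pow, ← map_mul]
      congr 1
      change algebraMap (𝓞 K) K (A * d ^ 2) = (algebraMap (𝓞 K) K d) ^ 2 * algebraMap (𝓞 K) K A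
      rw [map_mul, map_pow, mul_comm])
    (by
      unfold ca
      rw [show (s ^ 6) = (s ^ 2) ^ 3 by ring, hs, ← map_pow, ← map_mul]
      congr 1
      change algebraMap (𝓞 K) K (B * d ^ 3) = (algebraMap (𝓞 K) K d) ^ 3 * algebraMap (𝓞 K) K B
      rw [map_mul, map_pow, mul_comm])
  obtain ⟨g, hg⟩ := exists_restrict p Θ hΘ
  refine ⟨d, hd, g, fun x R => ?_⟩
  apply Subtype.ext
  rw [hg]
  rcases Int.units_eq_one_or (ε x) with h | h
  · rw [h, Units.val_one, one_smul]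
    have h1 := (hΘx x).1 (by rw [hx, h, Units.val_one, one_smul]) R
    change Θ (act _ _ x R) = act _ _ x (g R : EP _ _)
    rw [h1, hg]
  · rw [h, Units.val_neg, Units.val_one, neg_smul, one_smul]
    have h1 := (hΘx x).2 (by rw [hx, h, Units.val_neg, Units.val_one, neg_smul, one_smul]) R
    change Θ (act _ _ x R) = -act _ _ x (g R : EP _ _)
    rw [h1, hg]

open scoped Classical in
/-- `ρ` is the representation on the points of order `p` in some basis -/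
def IsRep (A B : K) (p : ℕ) (ρ : GK K →* GL (Fin 2) (ZMod p)) : Prop :=
  ∃ e : TT A B p ≃+ (Fin 2 → ZMod p), ∀ x P, e (aa A B p x P) = (ρ x).val *ᵥ e P

variable {k : Type*} [Field k]

/-- the representation `σ` is attached to the system of eigenvalues `a` -/
def Att (bad : Set (HeightOneSpectrum (𝓞 K))) (a : HeightOneSpectrum (𝓞 K) → k)
    (σ : GK K →* GL (Fin 2) k) : Prop :=
  IsOpen (σ.ker : Set (GK K)) ∧ ∀ v ∉ bad, ∀ x, IsFrob v x →
    (σ x).val.trace = a v ∧ (σ x).val.det = (Ideal.absNorm v.asIdeal : k)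

theorem IsRep.open {A B : K} {p : ℕ} [hp : Fact p.Prime] (hD : 4 * A ^ 3 + 27 * B ^ 2 ≠ 0)
    {ρ : GK K →* GL (Fin 2) (ZMod p)} (h : IsRep A B p ρ) : IsOpen (ρ.ker : Set (GK K)) := by
  classical
  obtain ⟨e, he⟩ := h
  obtain ⟨e', ρ', he', ho⟩ := exists_rep hD p
  refine Subgroup.isOpen_mono (H₁ := ρ'.ker) ?_ ho
  intro x hx
  rw [MonoidHom.mem_ker] at hx ⊢
  have h1 : ∀ P, aa A B p x P = P := by
    intro P
    apply e'.injective
    rw [he', hx, Units.val_one, Matrix.one_mulVec]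
  apply Units.ext
  apply Matrix.toLin'.injective
  apply LinearMap.ext
  intro c
  obtain ⟨P, rfl⟩ := e.surjective c
  rw [Matrix.toLin'_apply, Matrix.toLin'_apply, ← he, h1, Units.val_one, Matrix.one_mulVec]

variable [IsAlgClosed k] {p : ℕ} [hp : Fact p.Prime] [CharP k p]
variable {V : Type*} [AddCommGroup V] [Module k V] [FiniteDimensional k V]

open scoped Classical in
/-- **classes for which the identity holds at a small proportion of the places** -/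
theorem hecke_main (h5 : 5 ≤ p) {A B : 𝓞 K} (hD : 4 * A ^ 3 + 27 * B ^ 2 ≠ 0)
    {ρ : GK K →* GL (Fin 2) (ZMod p)} (hρ : IsRep (A : K) (B : K) p ρ)
    (hS : ∀ M : Matrix (Fin 2) (Fin 2) (ZMod p), M.det = 1 → ∃ x, (ρ x).val = M)
    (bad : Set (HeightOneSpectrum (𝓞 K))) (hbad : bad.Finite)
    (T : HeightOneSpectrum (𝓞 K) → V →ₗ[k] V)
    (hT : ∀ v ∉ bad, ∀ w ∉ bad, ∀ c, T v (T w c) = T w (T v c))
    (hgal : ∀ c : V, c ≠ 0 → ∀ a : HeightOneSpectrum (𝓞 K) → k, (∀ v ∉ bad, T v c = a v • c) →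
      ∃ σ, Att bad a σ)
    {c : V} (hc : c ≠ 0)
    (hdens : UGT {v | v ∉ bad ∧ ∃ x, IsFrob v x ∧
      T v c = ZMod.castHom (dvd_refl p) k (ρ x).val.trace • c} ((1 : ℝ) / (p - 1))) :
    ∃ d : 𝓞 K, d ≠ 0 ∧
      (UGT {v | v ∉ bad ∧ ∃ x, IsFrob v x ∧
        T v c = ZMod.castHom (dvd_refl p) k (ρ x).val.trace • c} ((p : ℝ) / (2 * (p - 1))) → d = 1) ∧
      ∃ (ρd : GK K →* GL (Fin 2) (ZMod p)) (c' : V),
        IsRep ((A * d ^ 2 : 𝓞 K) : K) ((B * d ^ 3 : 𝓞 K) : K) p ρd ∧ c' ≠ 0 ∧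
        ∀ v ∉ bad, ∀ x, IsFrob v x → T v c' = ZMod.castHom (dvd_refl p) k (ρd x).val.trace • c' := by
  have hp' : (5 : ℝ) ≤ p := by exact_mod_cast h5
  have hp2 : p ≠ 2 := by omega
  set φ := ZMod.castHom (dvd_refl p) k with hφ
  have hρo : IsOpen (ρ.ker : Set (GK K)) := hρ.open (coe_disc_ne hD)
  obtain ⟨e, he⟩ := hρ
  set S : Set (HeightOneSpectrum (𝓞 K)) := {v | v ∉ bad ∧ ∃ x, IsFrob v x ∧
      T v c = φ (ρ x).val.trace • c} with hSdef
  -- a simultaneous eigenvector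
  have hex : ∀ v : {v : HeightOneSpectrum (𝓞 K) // v ∉ bad}, ∃ t : k, v.1 ∈ S →
      (∃ x, IsFrob v.1 x ∧ t = φ (ρ x).val.trace) ∧ T v.1 c = t • c := by
    rintro ⟨v, hv⟩
    by_cases h : v ∈ S
    · obtain ⟨-, x, hx, h1⟩ := h
      exact ⟨_, fun _ => ⟨⟨x, hx, rfl⟩, h1⟩⟩
    · exact ⟨0, fun h' => absurd h' h⟩
  choose t ht using hex
  obtain ⟨c', hc', a, ha, haS⟩ := exists_eigen
    (fun v : {v : HeightOneSpectrum (𝓞 K) // v ∉ bad} => T v.1)
    (fun v w u => hT v.1 v.2 w.1 w.2 u) {v | v.1 ∈ S} t hc (fun v hv => (ht v hv).2)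
  let a' : HeightOneSpectrum (𝓞 K) → k := fun v => if h : v ∉ bad then a ⟨v, h⟩ else 0
  have ha' : ∀ v (hv : v ∉ bad), a' v = a ⟨v, hv⟩ := fun v hv => dif_pos hv
  obtain ⟨σ, hσo, hσ⟩ := hgal c' hc' a' (fun v hv => by rw [ha' v hv]; exact ha ⟨v, hv⟩)
  -- the determinants
  obtain ⟨χ, hχo, hχF⟩ := exists_cyc K p
  obtain ⟨τ, hτo, hτd, hτ, hτ'⟩ := exists_trace_rep hD hp2 hχo hχF he hρo
  obtain ⟨x₀, y₀, hxy⟩ := noncomm hS
  have e1 : τ = ρ := hτ'.resolve_right fun h => hxy (h.1 x₀ y₀)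
  subst e1
  have hbadp : {v : HeightOneSpectrum (𝓞 K) | (p : 𝓞 K) ∈ v.asIdeal}.Finite := by
    refine (finite_bad hD (p := p) hp.out.ne_zero).subset ?_
    intro v hv h
    exact h.2.2 hv
  have hdet : ∀ x, (σ x).val.det = φ (τ x).val.det := by
    have hUo : IsOpen ((τ.ker ⊓ σ.ker : Subgroup (GK K)) : Set (GK K)) := hτo.inter hσo
    refine eq_of_frob (τ.ker ⊓ σ.ker) hUo (fun x => (σ x).val.det) (fun x => φ (τ x).val.det)
      ?_ ?_ _ (hbad.union hbadp) ?_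
    · intro x u hu
      change (σ (x * u)).val.det = (σ x).val.det
      rw [map_mul, MonoidHom.mem_ker.1 hu.2, mul_one]
    · intro x u hu
      change φ (τ (x * u)).val.det = φ (τ x).val.det
      rw [map_mul, MonoidHom.mem_ker.1 hu.1, mul_one]
    · intro v hv x hx
      rw [Set.mem_union, not_or] at hv
      change (σ x).val.det = φ (τ x).val.det
      rw [(hσ v hv.1 x hx).2, hτd, hχF v hv.2 x hx, qv_norm, map_natCast]
  have hstr : ∀ v, v ∈ S → ∃ x, IsFrob v x ∧ (σ x).val.trace = φ (τ x).val.trace := by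
    intro v hv
    obtain ⟨⟨x, hx, hx'⟩, -⟩ := ht ⟨v, hv.1⟩ hv
    refine ⟨x, hx, ?_⟩
    rw [(hσ v hv.1 x hx).1, ha' v hv.1, haS ⟨v, hv.1⟩ hv, hx']
  have hTσ : ∀ v ∉ bad, ∀ x, IsFrob v x → T v c' = (σ x).val.trace • c' := by
    intro v hv x hx
    rw [(hσ v hv x hx).1, ha' v hv]
    exact ha ⟨v, hv⟩
  by_cases hbig : UGT S ((p : ℝ) / (2 * (p - 1)))
  · -- the exact threshold
    refine ⟨1, one_ne_zero, fun _ => rfl, τ, c', ?_, hc', ?_⟩
    · rw [one_pow, one_pow, mul_one, mul_one]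
      exact ⟨e, he⟩
    · obtain ⟨δ, hδ, hG⟩ := hbig.freq (by apply div_nonneg <;> linarith)
      obtain ⟨P, hP⟩ := main_two h5 (ext_large (k := k) τ hS) (ext_open τ hτo) hσo (fun v => v ∈ S) hG
        (by rw [ZMod.card]; exact hδ) (by
          intro v hv
          obtain ⟨x, hx, hx'⟩ := hstr v hv
          refine ⟨x, hx, ?_⟩
          rw [ext_val, hx', hφ]
          simp only [Matrix.trace, Matrix.diag, Matrix.map_apply, map_sum])
      intro v hv x hx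
      rw [hTσ v hv x hx]
      congr 1
      rw [hP, Units.val_mul, Units.val_mul, Matrix.trace_mul_comm, ← mul_assoc, val_inv_mul, one_mul,
        ext_val]
      simp only [Matrix.trace, Matrix.diag, Matrix.map_apply, map_sum, hφ]
  · obtain ⟨δ, hδ, hG⟩ := hdens.freq (by apply div_nonneg <;> linarith)
    obtain ⟨P, ε, hε, hP⟩ := main_fp h5 τ hτo hS σ hσo hdet (fun v => v ∈ S) hG hδ hstr
    obtain ⟨d, hd, g, hg⟩ := exists_twist_map A B p ε hε
    obtain ⟨ed, ρd, hed, -⟩ := exists_rep (K := K) (A := ((A * d ^ 2 : 𝓞 K) : K))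
      (B := ((B * d ^ 3 : 𝓞 K) : K)) (by
        apply coe_disc_ne
        have h1 : 4 * (A * d ^ 2) ^ 3 + 27 * (B * d ^ 3) ^ 2 = (4 * A ^ 3 + 27 * B ^ 2) * d ^ 6 := by
          ring
        rw [h1]
        exact mul_ne_zero hD (pow_ne_zero _ hd)) p
    refine ⟨d, hd, fun h => absurd h hbig, ρd, c', ⟨ed, hed⟩, hc', ?_⟩
    intro v hv x hx
    rw [hTσ v hv x hx]
    congr 1
    have h1 := trace_twist he hed g (hg x)
    have hsq : (((ε x : ℤˣ) : ℤ) : k) * (((ε x : ℤˣ) : ℤ) : k) = 1 := by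
      rw [← Int.cast_mul, ← Units.val_mul, Int.units_mul_self, Units.val_one, Int.cast_one]
    rw [hP, Matrix.trace_smul, Matrix.trace_mul_comm, ← mul_assoc, val_inv_mul, one_mul]
    have h2 : ((τ x).val.map (ZMod.castHom (dvd_refl p) k)).trace = φ (τ x).val.trace := by
      simp only [Matrix.trace, Matrix.diag, Matrix.map_apply, map_sum, hφ]
    rw [h2, h1, map_mul, map_intCast, smul_eq_mul, ← mul_assoc, hsq, one_mul]

end Pool.Agent.H502.EC
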