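import Pool.Agent.H502.EC.A12

/-!
# Classes on which the Hecke operators act through the traces of a representation with large image
-/

set_option autoImplicit false

namespace Pool.Agent.H502.EC

open NumberField IsDedekindDomain Pool.Agent.W401.Cheb Matrix Filter Topology Pool.Agent.H502.SM

variable {K : Type} [Field K] [NumberField K]
variable {k : Type*} [Field k] [IsAlgClosed k] {p : ℕ} [hp : Fact p.Prime] [CharP k p]
variable {V : Type*} [AddCommGroup V] [Module k V] [FiniteDimensional k V]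
variable {F : Type*} [Field F] [Fintype F] [CharP F p]

omit [IsAlgClosed k] in
lemma natCast_pow (n j : ℕ) : ((n : ℕ) : k) ^ p ^ j = (n : k) := by
  have h : ((n : ℕ) : k) = ZMod.castHom (dvd_refl p) k (n : ZMod p) := (map_natCast _ n).symm
  rw [h, ← map_pow, ZMod.pow_card_pow]

omit [NumberField K] [IsAlgClosed k] hp [CharP k p] in
lemma trace_map_pow' (j : ℕ) [ExpChar k p] (M : Matrix (Fin 2) (Fin 2) k) :
    (M.map (fun a => a ^ p ^ j)).trace = M.trace ^ p ^ j := by
  rw [Matrix.trace_fin_two, Matrix.trace_fin_two, Matrix.map_apply, Matrix.map_apply,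
    add_pow_expChar_pow]

omit [NumberField K] [IsAlgClosed k] hp [CharP k p] in
lemma det_map_pow' (j : ℕ) [ExpChar k p] (M : Matrix (Fin 2) (Fin 2) k) :
    (M.map (fun a => a ^ p ^ j)).det = M.det ^ p ^ j := by
  rw [Matrix.det_fin_two, Matrix.det_fin_two]
  simp only [Matrix.map_apply]
  rw [sub_pow_expChar_pow, mul_pow, mul_pow]

/-- **classes for which the identity holds at a small proportion of the places; large image** -/
theorem hecke_large (h5 : 5 ≤ p) {ι : F →+* k} {ρ : GK K →* GL (Fin 2) k} (hL : Large ι ρ)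
    (hρ : IsOpen (ρ.ker : Set (GK K)))
    (bad : Set (HeightOneSpectrum (𝓞 K))) (hbad : bad.Finite)
    (hρd : ∀ v ∉ bad, ∀ x, IsFrob v x → (ρ x).val.det = (Ideal.absNorm v.asIdeal : k))
    (T : HeightOneSpectrum (𝓞 K) → V →ₗ[k] V)
    (hT : ∀ v ∉ bad, ∀ w ∉ bad, ∀ c, T v (T w c) = T w (T v c))
    (φ : V ≃+ V) (hφ : ∀ (a : k) (c : V), φ (a • c) = a ^ p • φ c)
    (hφT : ∀ v ∉ bad, ∀ c, T v (φ c) = φ (T v c))
    (hgal : ∀ c : V, c ≠ 0 → ∀ a : HeightOneSpectrum (𝓞 K) → k, (∀ v ∉ bad, T v c = a v • c) →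
      ∃ σ, Att bad a σ)
    {c : V} (hc : c ≠ 0)
    (hdens : UGT {v | v ∉ bad ∧ ∃ x, IsFrob v x ∧ T v c = (ρ x).val.trace • c}
      ((1 : ℝ) / (Fintype.card F - 1))) :
    ∃ ε : GK K →* ℤˣ, IsOpen (ε.ker : Set (GK K)) ∧
      (UGT {v | v ∉ bad ∧ ∃ x, IsFrob v x ∧ T v c = (ρ x).val.trace • c}
        ((Fintype.card F : ℝ) / (2 * (Fintype.card F - 1))) → ε = 1) ∧
      ∃ c' : V, c' ≠ 0 ∧ ∀ v ∉ bad, ∀ x, IsFrob v x →
        T v c' = ((((ε x : ℤˣ) : ℤ) : k) * (ρ x).val.trace) • c' := by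
  have hexp : ExpChar k p := ExpChar.prime hp.out
  have hq : (5 : ℝ) ≤ Fintype.card F := by
    obtain ⟨n, -, hn⟩ := FiniteField.card F p
    have h1 : p ≤ Fintype.card F := by
      rw [hn]
      exact Nat.le_self_pow n.ne_zero p
    exact_mod_cast h5.trans h1
  set S : Set (HeightOneSpectrum (𝓞 K)) := {v | v ∉ bad ∧ ∃ x, IsFrob v x ∧
      T v c = (ρ x).val.trace • c} with hSdef
  have hex : ∀ v : {v : HeightOneSpectrum (𝓞 K) // v ∉ bad}, ∃ t : k, v.1 ∈ S →
      (∃ x, IsFrob v.1 x ∧ t = (ρ x).val.trace) ∧ T v.1 c = t • c := by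
    rintro ⟨v, hv⟩
    by_cases h : v ∈ S
    · obtain ⟨-, x, hx, h1⟩ := h
      exact ⟨_, fun _ => ⟨⟨x, hx, rfl⟩, h1⟩⟩
    · exact ⟨0, fun h' => absurd h' h⟩
  choose t ht using hex
  obtain ⟨c', hc', a, ha, haS⟩ := exists_eigen
    (fun v : {v : HeightOneSpectrum (𝓞 K) // v ∉ bad} => T v.1)
    (fun v w u => hT v.1 v.2 w.1 w.2 u) {v | v.1 ∈ S} t hc (fun v hv => (ht v hv).2)
  classical
  let a' : HeightOneSpectrum (𝓞 K) → k := fun v => if h : v ∉ bad then a ⟨v, h⟩ else 0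
  have ha' : ∀ v (hv : v ∉ bad), a' v = a ⟨v, hv⟩ := fun v hv => dif_pos hv
  obtain ⟨σ, hσo, hσ⟩ := hgal c' hc' a' (fun v hv => by rw [ha' v hv]; exact ha ⟨v, hv⟩)
  have hstr : ∀ v, v ∈ S → ∃ x, IsFrob v x ∧ (ρ x).val.trace = (σ x).val.trace := by
    intro v hv
    obtain ⟨⟨x, hx, hx'⟩, -⟩ := ht ⟨v, hv.1⟩ hv
    refine ⟨x, hx, ?_⟩
    rw [(hσ v hv.1 x hx).1, ha' v hv.1, haS ⟨v, hv.1⟩ hv, hx']
  have hTσ : ∀ v ∉ bad, ∀ x, IsFrob v x → T v c' = (σ x).val.trace • c' := by
    intro v hv x hx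
    rw [(hσ v hv x hx).1, ha' v hv]
    exact ha ⟨v, hv⟩
  by_cases hbig : UGT S ((Fintype.card F : ℝ) / (2 * (Fintype.card F - 1)))
  · refine ⟨1, ?_, fun _ => rfl, c', hc', ?_⟩
    · have : ((1 : GK K →* ℤˣ).ker : Set (GK K)) = Set.univ := by
        ext x
        simp [MonoidHom.mem_ker]
      rw [this]
      exact isOpen_univ
    · obtain ⟨δ, hδ, hG⟩ := hbig.freq (by apply div_nonneg <;> linarith)
      obtain ⟨P, hP⟩ := main_two h5 hL hρ hσo (fun v => v ∈ S) hG hδ hstr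
      intro v hv x hx
      rw [hTσ v hv x hx]
      congr 1
      rw [hP, Units.val_mul, Units.val_mul, Matrix.trace_mul_comm, ← mul_assoc, val_inv_mul, one_mul,
        MonoidHom.one_apply, Units.val_one, Int.cast_one, one_mul]
  · obtain ⟨δ, hδ, hG⟩ := hdens.freq (by apply div_nonneg <;> linarith)
    obtain ⟨i, P, j, χ, hχo, hχ⟩ := main_one h5 hL hρ (m := 1) (σ := fun _ => σ) (fun _ => hσo)
      (fun v => v ∈ S) hG (by push_cast; exact hδ) (by
        intro v hv
        obtain ⟨x, hx, hx'⟩ := hstr v hv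
        exact ⟨x, hx, 0, hx'⟩)
    -- the character is quadratic
    have hdet : ∀ x, (σ x).val.det = (χ x : k) ^ 2 * (ρ x).val.det ^ p ^ j := by
      intro x
      rw [hχ x, Matrix.det_smul, Matrix.det_mul, Matrix.det_mul, det_map_pow']
      have h1 : P.val.det * (P⁻¹).val.det = 1 := by
        rw [← Matrix.det_mul, ← Units.val_mul, mul_inv_cancel, Units.val_one, Matrix.det_one]
      rw [Fintype.card_fin]
      linear_combination (χ x : k) ^ 2 * (ρ x).val.det ^ p ^ j * h1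
    have hχ2 : ∀ x, (χ x : k) ^ 2 = 1 := by
      have hUo : IsOpen ((χ.ker : Subgroup (GK K)) : Set (GK K)) := hχo
      refine eq_of_frob χ.ker hUo (fun x => (χ x : k) ^ 2) (fun _ => 1) ?_ (fun _ _ _ => rfl) bad hbad ?_
      · intro x u hu
        change (χ (x * u) : k) ^ 2 = (χ x : k) ^ 2
        rw [map_mul, MonoidHom.mem_ker.1 hu, mul_one]
      · intro v hv x hx
        have h1 := hdet x
        rw [(hσ v hv x hx).2, hρd v hv x hx, natCast_pow] at h1
        have h2 : ((Ideal.absNorm v.asIdeal : ℕ) : k) ≠ 0 := by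
          rw [← hρd v hv x hx]
          have h3 : IsUnit (ρ x).val.det := (Matrix.isUnit_iff_isUnit_det _).1 (ρ x).isUnit
          exact h3.ne_zero
        exact mul_right_cancel₀ h2 (by rw [one_mul]; exact h1.symm)
    obtain ⟨ε, hε, hker⟩ := sign_char h5 χ hχ2
    -- the inverse Frobenius
    have hinv : ∀ (a : k) (c : V), φ.symm (a ^ p • c) = a • φ.symm c := by
      intro a c
      apply φ.injective
      rw [AddEquiv.apply_symm_apply, hφ, AddEquiv.apply_symm_apply]
    have hinvT : ∀ v ∉ bad, ∀ c, T v (φ.symm c) = φ.symm (T v c) := by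
      intro v hv c
      apply φ.injective
      rw [AddEquiv.apply_symm_apply, ← hφT v hv, AddEquiv.apply_symm_apply]
    have hit : ∀ n : ℕ, ∃ u : V, u ≠ 0 ∧ ∀ v ∉ bad, ∀ b : k, T v c' = b ^ p ^ n • c' → T v u = b • u := by
      intro n
      induction n with
      | zero => exact ⟨c', hc', fun v _ b hb => by rw [hb, pow_zero, pow_one]⟩
      | succ n ih =>
        obtain ⟨u, hu, hTu⟩ := ih
        refine ⟨φ.symm u, fun h => hu ((map_eq_zero_iff φ.symm φ.symm.injective).1 h), ?_⟩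
        intro v hv b hb
        have h1 : T v u = b ^ p • u := hTu v hv (b ^ p) (by rw [← pow_mul, ← pow_succ']; exact hb)
        rw [hinvT v hv, h1, hinv]
    obtain ⟨u, hu, hTu⟩ := hit j
    refine ⟨ε, by rw [← hker]; exact hχo, fun h => absurd h hbig, u, hu, ?_⟩
    intro v hv x hx
    refine hTu v hv _ ?_
    rw [hTσ v hv x hx, hχ x, Matrix.trace_smul, Matrix.trace_mul_comm, ← mul_assoc, val_inv_mul,
      one_mul, trace_map_pow', smul_eq_mul, mul_pow]
    congr 2
    rw [hε x]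
    -- `±1` is its own power
    rcases Int.units_eq_one_or (ε x) with h | h
    · rw [← hε x, h, Units.val_one, Int.cast_one, one_pow]
    · rw [← hε x, h, Units.val_neg, Units.val_one, Int.cast_neg, Int.cast_one]
      have hodd : Odd (p ^ j) := (hp.out.odd_of_ne_two (by omega)).pow
      exact hodd.neg_one_pow.symm

end Pool.Agent.H502.EC
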