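import Pool.Agent.H502.EC.A1

/-!
# The representation on the points of order `p`
-/

set_option autoImplicit false

namespace Pool.Agent.H502.EC

open Pool.Agent.H901R3.MS Pool.Agent.Q46.FR Pool.Agent.Y673.Loc NumberField IsDedekindDomain
open Pool.Agent.W401.Cheb Pool.Agent.W275.FM Pool.Agent.W275.FMK Pool.Agent.Y673.FM
open WeierstrassCurve Matrix

/-! ### a general lemma -/

section gen

variable {G : Type*} [Group G] {W : Type} [AddCommGroup W] {p : ℕ} [hp : Fact p.Prime]

theorem exists_rep_aux [Module (ZMod p) W] [Finite W] (hcard : Nat.card W = p ^ 2) (α : G → W →+ W)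
    (h1 : ∀ w, α 1 w = w) (hm : ∀ x y w, α (x * y) w = α x (α y w)) :
    ∃ (e : W ≃+ (Fin 2 → ZMod p)) (ρ : G →* GL (Fin 2) (ZMod p)),
      ∀ x w, e (α x w) = (ρ x).val *ᵥ e w := by
  classical
  have : Fintype W := Fintype.ofFinite W
  have hfr : Module.finrank (ZMod p) W = 2 := by
    have h1 : Fintype.card W = Fintype.card (ZMod p) ^ Module.finrank (ZMod p) W :=
      Module.card_eq_pow_finrank (K := ZMod p) (V := W)
    rw [← Nat.card_eq_fintype_card, hcard, ZMod.card] at h1
    exact (Nat.pow_right_injective hp.out.two_le h1).symm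
  let b : Module.Basis (Fin 2) (ZMod p) W := Module.finBasisOfFinrankEq (ZMod p) W hfr
  let e : W ≃ₗ[ZMod p] (Fin 2 → ZMod p) := b.equivFun
  let L : G → ((Fin 2 → ZMod p) →ₗ[ZMod p] (Fin 2 → ZMod p)) := fun x =>
    (e.toLinearMap.comp ((α x).toZModLinearMap p)).comp e.symm.toLinearMap
  have hL : ∀ x w, L x (e w) = e (α x w) := by
    intro x w
    change e (α x (e.symm (e w))) = _
    rw [LinearEquiv.symm_apply_apply]
  let M : G →* Matrix (Fin 2) (Fin 2) (ZMod p) :=
    { toFun := fun x => LinearMap.toMatrix' (L x)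
      map_one' := by
        have : L 1 = LinearMap.id := by
          ext1 w
          apply LinearMap.ext
          intro c
          obtain ⟨w', hw'⟩ := e.surjective (LinearMap.single (ZMod p) (fun _ : Fin 2 => ZMod p) w c)
          change L 1 (LinearMap.single (ZMod p) (fun _ : Fin 2 => ZMod p) w c) = _
          rw [← hw', hL, h1]
          rw [hw']
          rfl
        rw [this, LinearMap.toMatrix'_id]
      map_mul' := by
        intro x y
        have : L (x * y) = (L x).comp (L y) := by
          apply LinearMap.ext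
          intro c
          obtain ⟨w, rfl⟩ := e.surjective c
          change L (x * y) (e w) = L x (L y (e w))
          rw [hL, hL, hL, hm]
        rw [this, LinearMap.toMatrix'_comp] }
  refine ⟨e.toAddEquiv, M.toHomUnits, fun x w => ?_⟩
  change e (α x w) = (LinearMap.toMatrix' (L x)) *ᵥ e w
  rw [LinearMap.toMatrix'_mulVec, hL]

theorem exists_rep_abs (hW : ∀ w : W, p • w = 0) (hcard : Nat.card W = p ^ 2) (α : G → W →+ W)
    (h1 : ∀ w, α 1 w = w) (hm : ∀ x y w, α (x * y) w = α x (α y w)) :
    ∃ (e : W ≃+ (Fin 2 → ZMod p)) (ρ : G →* GL (Fin 2) (ZMod p)),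
      ∀ x w, e (α x w) = (ρ x).val *ᵥ e w := by
  have hfin : Finite W := Nat.finite_of_card_ne_zero (by rw [hcard]; exact pow_ne_zero _ hp.out.ne_zero)
  let m : Module (ZMod p) W := AddCommGroup.zmodModule hW
  exact @exists_rep_aux G _ W _ p hp m hfin hcard α h1 hm

end gen

section
variable {K : Type} [Field K]

open scoped Classical in
/-- the points of order `n` -/
noncomputable abbrev TT (A B : K) (n : ℕ) : AddSubgroup (EP A B) :=
  (nsmulAddMonoidHom n : EP A B →+ EP A B).ker

open scoped Classical in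
theorem mem_TT {A B : K} {n : ℕ} {P : EP A B} : P ∈ TT A B n ↔ n • P = 0 := Iff.rfl

open scoped Classical in
/-- the action on the points of order `n` -/
noncomputable def aa (A B : K) (n : ℕ) (σ : GK K) : TT A B n →+ TT A B n :=
  ((act A B σ).comp (TT A B n).subtype).codRestrict (TT A B n) (by
    rintro ⟨P, hP⟩
    rw [mem_TT] at hP
    show n • act A B σ P = 0
    rw [← map_nsmul, hP, map_zero])

open scoped Classical in
theorem aa_coe (A B : K) (n : ℕ) (σ : GK K) (P : TT A B n) :
    (aa A B n σ P : EP A B) = act A B σ P := rfl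

open scoped Classical in
theorem act_mul (A B : K) (σ τ : GK K) (P : EP A B) :
    act A B (σ * τ) P = act A B σ (act A B τ P) := by
  rcases P with _ | ⟨x, y, h⟩
  · rfl
  · rfl

open scoped Classical in
theorem act_one (A B : K) (P : EP A B) : act A B 1 P = P := by
  rcases P with _ | ⟨x, y, h⟩
  · rfl
  · rfl

open scoped Classical in
theorem exists_open (A B : K) (P : EP A B) : ∃ U : Subgroup (GK K), IsOpen (U : Set (GK K)) ∧
    ∀ x ∈ U, act A B x P = P := by
  rcases P with _ | ⟨a, b, h⟩
  · exact ⟨⊤, isOpen_univ, fun x _ => rfl⟩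
  · refine ⟨MulAction.stabilizer (GK K) a ⊓ MulAction.stabilizer (GK K) b,
      (stabilizer_isOpen_of_isIntegral a).inter (stabilizer_isOpen_of_isIntegral b), ?_⟩
    rintro x ⟨h1, h2⟩
    have e1 : x a = a := h1
    have e2 : x b = b := h2
    have key : ∀ (a' b' : AlgebraicClosure K)
        (h' : ((CV A B).baseChange (AlgebraicClosure K)).toAffine.Nonsingular a' b'),
        a' = a → b' = b → (Affine.Point.some a' b' h' : EP A B) = Affine.Point.some a b h := by
      rintro a' b' h' rfl rfl
      rfl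
    exact key _ _ _ e1 e2

end

section
variable {K : Type} [Field K] [NumberField K]

open scoped Classical in
theorem card_TT {A B : K} (hD : 4 * A ^ 3 + 27 * B ^ 2 ≠ 0) {p : ℕ} (hp : p.Prime) :
    Nat.card (TT A B p) = p ^ 2 := by
  have h2 : Nat.card (TT A B p) = {P : EP A B | p • P = 0}.ncard := Nat.card_coe_set_eq _
  rw [h2]
  exact le_antisymm (tor_EP_upper A B hD hp) (tor_EP A B hD hp.one_le).2

open scoped Classical in
/-- **the representation on the points of order `p`** -/
theorem exists_rep {A B : K} (hD : 4 * A ^ 3 + 27 * B ^ 2 ≠ 0) (p : ℕ) [hp : Fact p.Prime] :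
    ∃ (e : TT A B p ≃+ (Fin 2 → ZMod p)) (ρ : GK K →* GL (Fin 2) (ZMod p)),
      (∀ x P, e (aa A B p x P) = (ρ x).val *ᵥ e P) ∧ IsOpen (ρ.ker : Set (GK K)) := by
  obtain ⟨e, ρ, h⟩ := exists_rep_abs (G := GK K) (W := TT A B p) (p := p) (by
    rintro ⟨P, hP⟩
    exact Subtype.ext hP) (card_TT hD hp.out) (aa A B p) (by
    intro P
    exact Subtype.ext (act_one A B P)) (by
    intro x y P
    exact Subtype.ext (act_mul A B x y P))
  refine ⟨e, ρ, h, ?_⟩
  have hfin : Finite (TT A B p) := Nat.finite_of_card_ne_zero (by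
    rw [card_TT hD hp.out]; exact pow_ne_zero _ hp.out.ne_zero)
  choose U hU hU' using fun P : TT A B p => exists_open A B (P : EP A B)
  have hop : IsOpen ((⨅ P, U P : Subgroup (GK K)) : Set (GK K)) := by
    rw [Subgroup.coe_iInf]
    exact isOpen_iInter_of_finite hU
  refine Subgroup.isOpen_mono (H₁ := ⨅ P, U P) ?_ hop
  intro x hx
  rw [Subgroup.mem_iInf] at hx
  rw [MonoidHom.mem_ker]
  apply Units.ext
  have h1 : ∀ c : Fin 2 → ZMod p, (ρ x).val *ᵥ c = c := by
    intro c
    obtain ⟨P, rfl⟩ := e.surjective c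
    rw [← h]
    congr 1
    exact Subtype.ext (hU' P x (hx P))
  ext i j
  have h2 := congrFun (h1 (Pi.single j 1)) i
  simpa [Matrix.one_apply, Pi.single_apply] using h2

end

end Pool.Agent.H502.EC
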