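import Pool.Agent.H502.EC.A2

/-!
# The cyclotomic character modulo `p`
-/

set_option autoImplicit false

namespace Pool.Agent.H502.EC

open Pool.Agent.Q46.FR NumberField IsDedekindDomain Pool.Agent.W401.Cheb

variable {K : Type} [Field K] [NumberField K]

theorem qv_norm (v : HeightOneSpectrum (𝓞 K)) : qv v = Ideal.absNorm v.asIdeal := by
  rw [Ideal.absNorm_apply, Submodule.cardQuot_apply]
  rfl

theorem exists_cyc (K : Type) [Field K] [NumberField K] (p : ℕ) [hp : Fact p.Prime] :
    ∃ c : GK K →* (ZMod p)ˣ, IsOpen (c.ker : Set (GK K)) ∧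
      ∀ v : HeightOneSpectrum (𝓞 K), (p : 𝓞 K) ∉ v.asIdeal → ∀ x, IsFrob v x →
        ((c x : (ZMod p)ˣ) : ZMod p) = (qv v : ZMod p) := by
  have : CharZero (AlgebraicClosure K) :=
    charZero_of_injective_algebraMap (algebraMap K (AlgebraicClosure K)).injective
  have : NeZero p := ⟨hp.out.ne_zero⟩
  have : NeZero ((p : ℕ) : AlgebraicClosure K) := ⟨by exact_mod_cast hp.out.ne_zero⟩
  obtain ⟨ζ, hζ⟩ := HasEnoughRootsOfUnity.exists_primitiveRoot (AlgebraicClosure K) p
  refine ⟨hζ.autToPow K, ?_, ?_⟩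
  · refine Subgroup.isOpen_mono (H₁ := MulAction.stabilizer (GK K) ζ) ?_
      (stabilizer_isOpen_of_isIntegral ζ)
    intro x hx
    have hx' : x ζ = ζ := hx
    rw [MonoidHom.mem_ker]
    apply Units.ext
    rw [Units.val_one]
    have h1 := hζ.autToPow_spec K x
    rw [hx'] at h1
    have h2 : ζ ^ ((hζ.autToPow K x : (ZMod p)ˣ) : ZMod p).val = ζ ^ 1 := by rw [h1, pow_one]
    have h3 := hζ.pow_inj (ZMod.val_lt _) hp.out.one_lt h2
    have h4 := ZMod.natCast_zmod_val ((hζ.autToPow K x : (ZMod p)ˣ) : ZMod p)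
    rw [h3, Nat.cast_one] at h4
    exact h4.symm
  · rintro v hpv x ⟨Q, hQm, hQv, hQ⟩
    have hint : IsIntegral ℤ ζ := hζ.isIntegral hp.out.pos
    let z : 𝓞 (AlgebraicClosure K) := ⟨ζ, hint⟩
    have hz : IsPrimitiveRoot z p :=
      IsPrimitiveRoot.of_map_of_injective (f := algebraMap (𝓞 (AlgebraicClosure K)) (AlgebraicClosure K))
        hζ (FaithfulSMul.algebraMap_injective _ _)
    let kk := 𝓞 (AlgebraicClosure K) ⧸ Q
    let _ : Field kk := Ideal.Quotient.field Q
    set m : 𝓞 (AlgebraicClosure K) →+* kk := Ideal.Quotient.mk Q with hm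
    have hp0 : m (p : 𝓞 (AlgebraicClosure K)) ≠ 0 := by
      intro h
      apply hpv
      rw [← hQv, Ideal.mem_comap, map_natCast]
      exact Ideal.Quotient.eq_zero_iff_mem.mp h
    have hz1 : m z ≠ 1 := by
      intro h
      have h1 := hz.geom_sum_eq_zero hp.out.one_lt
      have h2 := congrArg m h1
      rw [map_sum, map_zero] at h2
      simp only [map_pow, h, one_pow, Finset.sum_const, Finset.card_range, nsmul_eq_mul, mul_one] at h2
      apply hp0
      rw [map_natCast]
      exact h2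
    have hzp : m z ^ p = 1 := by rw [← map_pow, hz.pow_eq_one, map_one]
    have hmz : IsPrimitiveRoot (m z) p := by
      have := orderOf_eq_prime hzp hz1
      rw [← this]
      exact IsPrimitiveRoot.orderOf _
    have h1 := hζ.autToPow_spec K x
    set i := ((hζ.autToPow K x : (ZMod p)ˣ) : ZMod p).val with hi
    have h2 : x • z = z ^ i := by
      apply RingOfIntegers.ext
      rw [Pool.Agent.W401.Frob.coe_smul]
      change x ζ = _
      rw [← h1]
      rfl
    have h3 := hQ z
    rw [h2] at h3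
    have h4 : m z ^ i = m z ^ (Ideal.absNorm v.asIdeal) := by
      rw [← map_pow, ← map_pow]
      exact Ideal.Quotient.eq.mpr h3
    have h5 : m z ^ i = m z ^ (Ideal.absNorm v.asIdeal % p) := by
      rw [h4]
      conv_lhs => rw [← Nat.mod_add_div (Ideal.absNorm v.asIdeal) p]
      rw [pow_add, pow_mul, hzp, one_pow, mul_one]
    have h6 := hmz.pow_inj (ZMod.val_lt _) (Nat.mod_lt _ hp.out.pos) h5
    have h7 := ZMod.natCast_zmod_val ((hζ.autToPow K x : (ZMod p)ˣ) : ZMod p)
    rw [h6, ZMod.natCast_mod] at h7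
    rw [← h7, qv_norm]

end Pool.Agent.H502.EC
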