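import Pool.Agent.H502.EC.A3
import Pool.Agent.H502.SM.Main
import Pool.Graph.R_pool_sql_team_seeded_3997aac3.Q46.FR.Asm2

/-!
# Traces of Frobenius elements on the points of order `p`
-/

set_option autoImplicit false

namespace Pool.Agent.H502.EC

open Pool.Agent.H901R3.MS Pool.Agent.Q46.FR Pool.Agent.Y673.Loc NumberField IsDedekindDomain
open Pool.Agent.W401.Cheb Pool.Agent.W275.FM Pool.Agent.W275.FMK Pool.Agent.Y673.FM
open WeierstrassCurve Matrix Filter Topology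

variable {K : Type} [Field K] [NumberField K]

/-! ### Chebotarev: Frobenius elements near a given element -/

theorem tendsto_primeCounting : Tendsto (fun N : ℕ => (Nat.primeCounting N : ℝ)) atTop atTop := by
  apply tendsto_natCast_atTop_atTop.comp
  exact Nat.tendsto_primeCounting

theorem dens_finite {P : HeightOneSpectrum (𝓞 K) → Prop} (hP : {v | P v}.Finite) :
    Tendsto (dens P) atTop (𝓝 0) := by
  have h1 : ∀ N, dens P N ≤ ({v | P v}.ncard : ℝ) / (Nat.primeCounting N : ℝ) := by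
    intro N
    unfold dens
    apply div_le_div_of_nonneg_right _ (Nat.cast_nonneg _)
    have h2 : Nat.card {v : HeightOneSpectrum (𝓞 K) // Ideal.absNorm v.asIdeal ≤ N ∧ P v} =
        {v : HeightOneSpectrum (𝓞 K) | Ideal.absNorm v.asIdeal ≤ N ∧ P v}.ncard :=
      Nat.card_coe_set_eq _
    rw [h2]
    have h5 : {v : HeightOneSpectrum (𝓞 K) | Ideal.absNorm v.asIdeal ≤ N ∧ P v} ⊆ {v | P v} :=
      fun v hv => hv.2
    exact_mod_cast Set.ncard_le_ncard h5 hP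
  have h3 : Tendsto (fun N : ℕ => ({v | P v}.ncard : ℝ) / (Nat.primeCounting N : ℝ)) atTop (𝓝 0) :=
    tendsto_primeCounting.const_div_atTop _
  exact squeeze_zero (fun N => Pool.Agent.W528.Ord.dens_nonneg P N) h1 h3

theorem exists_frob_near (U : Subgroup (GK K)) [U.Normal] (hU : IsOpen (U : Set (GK K))) (y : GK K)
    (S : Set (HeightOneSpectrum (𝓞 K))) (hS : S.Finite) :
    ∃ v, v ∉ S ∧ ∃ x, IsFrob v x ∧ (QuotientGroup.mk x : GK K ⧸ U) = QuotientGroup.mk y := by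
  have hfin : Finite (GK K ⧸ U) := Subgroup.quotient_finite_of_isOpen _ hU
  set C : Set (GK K) := {x | ∃ τ : GK K, (QuotientGroup.mk x : GK K ⧸ U) =
    QuotientGroup.mk (τ * y * τ⁻¹)} with hC
  have h1 : ∀ σ ∈ C, ∀ τ : GK K, τ * σ * τ⁻¹ ∈ C := by
    rintro σ ⟨τ', h⟩ τ
    refine ⟨τ * τ', ?_⟩
    have e1 : (QuotientGroup.mk (τ * σ * τ⁻¹) : GK K ⧸ U) =
      QuotientGroup.mk τ * QuotientGroup.mk σ * (QuotientGroup.mk τ)⁻¹ := rfl
    have e2 : (QuotientGroup.mk (τ * τ' * y * (τ * τ')⁻¹) : GK K ⧸ U) =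
      QuotientGroup.mk τ * QuotientGroup.mk (τ' * y * τ'⁻¹) * (QuotientGroup.mk τ)⁻¹ := by
      have : τ * τ' * y * (τ * τ')⁻¹ = τ * (τ' * y * τ'⁻¹) * τ⁻¹ := by group
      rw [this]
      rfl
    rw [e1, e2, h]
  have h2 : ∀ σ ∈ C, ∀ u ∈ U, σ * u ∈ C := by
    rintro σ ⟨τ', h⟩ u hu
    refine ⟨τ', ?_⟩
    rw [← h]
    have e1 : (QuotientGroup.mk (σ * u) : GK K ⧸ U) = QuotientGroup.mk σ * QuotientGroup.mk u := rfl
    have e2 : (QuotientGroup.mk u : GK K ⧸ U) = 1 := (QuotientGroup.eq_one_iff u).mpr hu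
    rw [e1, e2, mul_one]
  have key := Pool.Agent.W528.Ord.chebK K U hU C h1 h2
  by_contra hcon
  push Not at hcon
  have h3 : {v : HeightOneSpectrum (𝓞 K) | ∃ σ ∈ C, IsFrob v σ} ⊆ S := by
    rintro v ⟨σ, ⟨τ, hτ⟩, hσ⟩
    by_contra hv
    apply hcon v hv (τ⁻¹ * σ * τ)
    · have := (Pool.Agent.W401.Frob.main K).2.2 v σ τ⁻¹ hσ
      rwa [inv_inv] at this
    · have e1 : (QuotientGroup.mk (τ⁻¹ * σ * τ) : GK K ⧸ U) =
        (QuotientGroup.mk τ)⁻¹ * QuotientGroup.mk σ * QuotientGroup.mk τ := rfl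
      rw [e1, hτ]
      have e2 : (QuotientGroup.mk (τ * y * τ⁻¹) : GK K ⧸ U) =
        QuotientGroup.mk τ * QuotientGroup.mk y * (QuotientGroup.mk τ)⁻¹ := rfl
      rw [e2]
      group
  have h4 := dens_finite (hS.subset h3)
  have h5 := tendsto_nhds_unique key h4
  have hpos : (0 : ℝ) < (Nat.card (GK K ⧸ U) : ℝ) := by exact_mod_cast Nat.card_pos
  have hne : ((QuotientGroup.mk : GK K → GK K ⧸ U) '' C).Nonempty :=
    ⟨_, y, ⟨1, by simp⟩, rfl⟩
  have h6 : 0 < (((QuotientGroup.mk : GK K → GK K ⧸ U) '' C).ncard : ℝ) := by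
    exact_mod_cast (Set.ncard_pos (Set.toFinite _)).mpr hne
  have h7 := div_pos h6 hpos
  rw [h5] at h7
  exact lt_irrefl _ h7

/-! ### the relation for matrices -/

/-- the good places -/
def GoodPl (A B : 𝓞 K) (p : ℕ) (v : HeightOneSpectrum (𝓞 K)) : Prop :=
  (2 : 𝓞 K) ∉ v.asIdeal ∧ 4 * A ^ 3 + 27 * B ^ 2 ∉ v.asIdeal ∧ (p : 𝓞 K) ∉ v.asIdeal

theorem finite_bad {A B : 𝓞 K} (hD : 4 * A ^ 3 + 27 * B ^ 2 ≠ 0) {p : ℕ} (hp : p ≠ 0) :
    {v : HeightOneSpectrum (𝓞 K) | ¬ GoodPl A B p v}.Finite := by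
  have h1 : {v : HeightOneSpectrum (𝓞 K) | ¬ GoodPl A B p v} ⊆
      {v | (2 : 𝓞 K) ∈ v.asIdeal} ∪ ({v | 4 * A ^ 3 + 27 * B ^ 2 ∈ v.asIdeal} ∪
        {v | (p : 𝓞 K) ∈ v.asIdeal}) := by
    intro v hv
    by_contra hcon
    rw [Set.mem_union, Set.mem_union, not_or, not_or] at hcon
    exact hv ⟨hcon.1, hcon.2.1, hcon.2.2⟩
  exact ((finite_mem (by norm_num)).union ((finite_mem hD).union
    (finite_mem (by exact_mod_cast hp)))).subset h1

/-- the number `a_v` modulo `p` -/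
noncomputable def av (A B : 𝓞 K) (p : ℕ) (v : HeightOneSpectrum (𝓞 K)) : ZMod p :=
  (((qv v : ℤ) + 1 - pts v A B : ℤ) : ZMod p)

open scoped Classical in
theorem mat_rel {A B : 𝓞 K} {p : ℕ} [hp : Fact p.Prime] (hp2 : p ≠ 2)
    {e : TT (A : K) (B : K) p ≃+ (Fin 2 → ZMod p)} {ρ : GK K →* GL (Fin 2) (ZMod p)}
    (he : ∀ x P, e (aa (A : K) (B : K) p x P) = (ρ x).val *ᵥ e P)
    {v : HeightOneSpectrum (𝓞 K)} (hv : GoodPl A B p v) {x : GK K} (hx : IsFrob v x) :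
    (ρ x).val * (ρ x).val = av A B p v • (ρ x).val - (qv v : ZMod p) • 1 := by
  set a : ℤ := (qv v : ℤ) + 1 - pts v A B with ha
  have h1 : ∀ c : Fin 2 → ZMod p, ((ρ x).val * (ρ x).val) *ᵥ c =
      (av A B p v • (ρ x).val - (qv v : ZMod p) • 1) *ᵥ c := by
    intro c
    obtain ⟨P, rfl⟩ := e.surjective c
    have hP : p • (P : EP (A : K) (B : K)) = 0 := P.2
    have h2 := rel_EP A B v hv.1 hv.2.1 hp.out hp2 hv.2.2 hx P hP
    have h3 : aa (A : K) (B : K) p x (aa (A : K) (B : K) p x P) - a • aa (A : K) (B : K) p x P +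
        (qv v : ℤ) • P = 0 := Subtype.ext h2
    have h4 := congrArg e h3
    rw [map_add, map_sub, map_zsmul, map_zsmul, he, he, map_zero] at h4
    rw [← Matrix.mulVec_mulVec, Matrix.sub_mulVec, Matrix.smul_mulVec, Matrix.smul_mulVec,
      Matrix.one_mulVec]
    have e1 : a • ((ρ x).val *ᵥ e P) = av A B p v • ((ρ x).val *ᵥ e P) := by
      rw [← Int.cast_smul_eq_zsmul (ZMod p)]
      rfl
    have e2 : ((qv v : ℕ) : ℤ) • e P = (qv v : ZMod p) • e P := by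
      rw [← Int.cast_smul_eq_zsmul (ZMod p), Int.cast_natCast]
    rw [e1, e2] at h4
    rw [sub_add_eq_add_sub] at h4
    have h5 := sub_eq_zero.mp h4
    rw [← h5, add_sub_cancel_right]
  apply Matrix.ext_of_mulVec_single
  intro i
  exact h1 _

theorem dich {p : ℕ} [Fact p.Prime] {M : Matrix (Fin 2) (Fin 2) (ZMod p)} {a q : ZMod p}
    (h : M * M = a • M - q • 1) : (∃ s : ZMod p, M = s • 1) ∨ (M.trace = a ∧ M.det = q) := by
  have h1 := Pool.Agent.H502.SM.mul_self_eq M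
  rw [h] at h1
  by_cases hta : M.trace = a
  · right
    refine ⟨hta, ?_⟩
    rw [hta] at h1
    have h2 := congrFun (congrFun h1 0) 0
    simp at h2
    exact h2.symm
  · left
    have h2 : (a - M.trace) • M = (q - M.det) • (1 : Matrix (Fin 2) (Fin 2) (ZMod p)) := by
      rw [sub_smul, sub_smul]
      have h3 : a • M - q • (1 : Matrix (Fin 2) (Fin 2) (ZMod p)) - M.trace • M + M.det • 1 = 0 := by
        rw [h1]; abel
      have h4 : a • M - M.trace • M - (q • (1 : Matrix (Fin 2) (Fin 2) (ZMod p)) - M.det • 1) = 0 := by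
        rw [← h3]; abel
      exact sub_eq_zero.mp h4
    refine ⟨(a - M.trace)⁻¹ * (q - M.det), ?_⟩
    rw [mul_smul, ← h2, smul_smul, inv_mul_cancel₀ (sub_ne_zero.mpr (Ne.symm hta)), one_smul]

/-- diagonal matrices -/
def dg {G : Type*} [Group G] {p : ℕ} (s c : G →* (ZMod p)ˣ) : G →* GL (Fin 2) (ZMod p) where
  toFun x := ⟨!![(s x : ZMod p), 0; 0, (c x : ZMod p)],
    !![((s x)⁻¹ : (ZMod p)ˣ), 0; 0, ((c x)⁻¹ : (ZMod p)ˣ)], by
      ext i j; fin_cases i <;> fin_cases j <;> simp, by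
      ext i j; fin_cases i <;> fin_cases j <;> simp⟩
  map_one' := by
    apply Units.ext
    ext i j; fin_cases i <;> fin_cases j <;> simp
  map_mul' x y := by
    apply Units.ext
    ext i j; fin_cases i <;> fin_cases j <;> simp

theorem dg_val {G : Type*} [Group G] {p : ℕ} (s c : G →* (ZMod p)ˣ) (x : G) :
    (dg s c x).val = !![(s x : ZMod p), 0; 0, (c x : ZMod p)] := rfl

end Pool.Agent.H502.EC
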