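import Pool.Agent.H502.EC.A4

/-!
# A representation with the traces given by the numbers of points
-/

set_option autoImplicit false

namespace Pool.Agent.H502.EC

open Pool.Agent.H901R3.MS Pool.Agent.Q46.FR Pool.Agent.Y673.Loc NumberField IsDedekindDomain
open Pool.Agent.W401.Cheb Pool.Agent.W275.FM Pool.Agent.W275.FMK Pool.Agent.Y673.FM
open WeierstrassCurve Matrix Filter Topology

variable {K : Type} [Field K] [NumberField K]

omit [NumberField K] in
theorem coe_disc_ne {A B : 𝓞 K} (hD : 4 * A ^ 3 + 27 * B ^ 2 ≠ 0) :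
    4 * (A : K) ^ 3 + 27 * (B : K) ^ 2 ≠ 0 := by
  rw [← coe_disc]
  intro h
  exact hD (RingOfIntegers.ext h)

open scoped Classical in
/-- **the traces** -/
theorem exists_trace_rep {A B : 𝓞 K} (hD : 4 * A ^ 3 + 27 * B ^ 2 ≠ 0) {p : ℕ} [hp : Fact p.Prime]
    (hp2 : p ≠ 2) {c : GK K →* (ZMod p)ˣ} (hc : IsOpen (c.ker : Set (GK K)))
    (hcF : ∀ v : HeightOneSpectrum (𝓞 K), (p : 𝓞 K) ∉ v.asIdeal → ∀ x, IsFrob v x →
      ((c x : (ZMod p)ˣ) : ZMod p) = (qv v : ZMod p))
    {e : TT (A : K) (B : K) p ≃+ (Fin 2 → ZMod p)} {ρ : GK K →* GL (Fin 2) (ZMod p)}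
    (he : ∀ x P, e (aa (A : K) (B : K) p x P) = (ρ x).val *ᵥ e P)
    (hρ : IsOpen (ρ.ker : Set (GK K))) :
    ∃ ρ' : GK K →* GL (Fin 2) (ZMod p), IsOpen (ρ'.ker : Set (GK K)) ∧
      (∀ x, (ρ' x).val.det = ((c x : (ZMod p)ˣ) : ZMod p)) ∧
      (∀ v, GoodPl A B p v → ∀ x, IsFrob v x → (ρ' x).val.trace = av A B p v) ∧
      (ρ' = ρ ∨ ((∀ x y, ρ x * ρ y = ρ y * ρ x) ∧ ∀ x y, ρ' x * ρ' y = ρ' y * ρ' x)) := by
  have h2 : (2 : ZMod p) ≠ 0 := by
    have : ((2 : ℕ) : ZMod p) ≠ 0 := by
      rw [Ne, ZMod.natCast_eq_zero_iff]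
      intro h
      exact hp2 ((Nat.prime_dvd_prime_iff_eq hp.out Nat.prime_two).mp h)
    exact_mod_cast this
  have hdich : ∀ v, GoodPl A B p v → ∀ x, IsFrob v x →
      (∃ s : ZMod p, (ρ x).val = s • 1) ∨ ((ρ x).val.trace = av A B p v ∧
        (ρ x).val.det = ((c x : (ZMod p)ˣ) : ZMod p)) := by
    intro v hv x hx
    rw [hcF v hv.2.2 x hx]
    exact dich (mat_rel hp2 he hv hx)
  have hcl : ∀ y, (∃ s : ZMod p, (ρ y).val = s • 1) ∨
      (ρ y).val.det = ((c y : (ZMod p)ˣ) : ZMod p) := by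
    intro y
    obtain ⟨v, hv, x, hx, hxy⟩ := exists_frob_near (ρ.ker ⊓ c.ker) (hρ.inter hc) y _
      (finite_bad hD (p := p) hp.out.ne_zero)
    rw [Set.mem_ofPred_eq, not_not] at hv
    have h3 : x⁻¹ * y ∈ ρ.ker ⊓ c.ker := QuotientGroup.eq.mp hxy
    have h4 : ρ y = ρ x := by
      have : x⁻¹ * y ∈ ρ.ker := h3.1
      rw [MonoidHom.mem_ker, map_mul, map_inv, inv_mul_eq_one] at this
      exact this.symm
    have h5 : c y = c x := by
      have : x⁻¹ * y ∈ c.ker := h3.2
      rw [MonoidHom.mem_ker, map_mul, map_inv, inv_mul_eq_one] at this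
      exact this.symm
    rw [h4, h5]
    rcases hdich v hv x hx with h | h
    · exact Or.inl h
    · exact Or.inr h.2
  by_cases hs : ∀ y, ∃ s : ZMod p, (ρ y).val = s • 1
  · -- all are scalars
    choose s hs using hs
    have hs0 : ∀ y, (ρ y).val 0 0 = s y := by
      intro y; rw [hs]; simp
    let s' : GK K →* (ZMod p)ˣ := MonoidHom.toHomUnits
      { toFun := fun y => (ρ y).val 0 0
        map_one' := by simp
        map_mul' := by
          intro x y
          change (ρ (x * y)).val 0 0 = (ρ x).val 0 0 * (ρ y).val 0 0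
          rw [map_mul, Units.val_mul, hs x, hs y]
          simp [mul_comm] }
    have hs' : ∀ y, ((s' y : (ZMod p)ˣ) : ZMod p) = s y := hs0
    let ρ' : GK K →* GL (Fin 2) (ZMod p) := dg s' (c / s')
    refine ⟨ρ', ?_, ?_, ?_, Or.inr ⟨?_, ?_⟩⟩
    · refine Subgroup.isOpen_mono (H₁ := ρ.ker ⊓ c.ker) ?_ (hρ.inter hc)
      rintro x ⟨hx1, hx2⟩
      have hx3 : ρ x = 1 := hx1
      have hx4 : c x = 1 := hx2
      have hx5 : s' x = 1 := by
        apply Units.ext
        change (ρ x).val 0 0 = _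
        rw [hx3]; simp
      rw [MonoidHom.mem_ker]
      apply Units.ext
      change (dg s' (c / s') x).val = _
      rw [dg_val, MonoidHom.div_apply, hx5, hx4]
      ext i j; fin_cases i <;> fin_cases j <;> simp
    · intro x
      change (dg s' (c / s') x).val.det = _
      rw [dg_val, Matrix.det_fin_two, MonoidHom.div_apply]
      simp only [Matrix.of_apply, Matrix.cons_val', Matrix.cons_val_zero, Matrix.cons_val_one,
        Matrix.cons_val_fin_one, mul_zero, sub_zero]
      rw [← Units.val_mul, mul_div_cancel]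
    · intro v hv x hx
      change (dg s' (c / s') x).val.trace = _
      rw [dg_val, Matrix.trace_fin_two, MonoidHom.div_apply]
      simp only [Matrix.of_apply, Matrix.cons_val', Matrix.cons_val_zero, Matrix.cons_val_one,
        Matrix.cons_val_fin_one]
      have h3 := congrFun (congrFun (mat_rel hp2 he hv hx) 0) 0
      rw [← hcF v hv.2.2 x hx, hs x] at h3
      simp at h3
      have h4 : s x ≠ 0 := by rw [← hs']; exact Units.ne_zero _
      have h5 : ((c x / s' x : (ZMod p)ˣ) : ZMod p) = (c x : (ZMod p)ˣ) / s x := by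
        rw [Units.val_div_eq_div_val, hs']
      rw [h5, hs']
      field_simp
      linear_combination h3
    · intro x y
      apply Units.ext
      rw [Units.val_mul, Units.val_mul, hs x, hs y, smul_mul_smul_comm, smul_mul_smul_comm, mul_comm]
    · intro x y
      apply Units.ext
      change (dg s' (c / s') x).val * (dg s' (c / s') y).val =
        (dg s' (c / s') y).val * (dg s' (c / s') x).val
      rw [dg_val, dg_val]
      ext i j; fin_cases i <;> fin_cases j <;> simp [mul_comm]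
  · push Not at hs
    obtain ⟨y₂, hy₂⟩ := hs
    have hdet : ∀ y, (ρ y).val.det = ((c y : (ZMod p)ˣ) : ZMod p) := by
      intro y
      by_contra hne
      obtain ⟨s, hs⟩ := (hcl y).resolve_right hne
      have h3 : (ρ y₂).val.det = ((c y₂ : (ZMod p)ˣ) : ZMod p) :=
        (hcl y₂).resolve_left (fun ⟨t, ht⟩ => hy₂ t ht)
      have hs0 : s ≠ 0 := by
        rintro rfl
        have := Pool.Agent.H502.SM.mm_det_ne ρ y
        rw [Pool.Agent.H502.SM.mm, hs, zero_smul] at this
        simp at this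
      have h4 : (ρ (y * y₂)).val.det = ((c (y * y₂) : (ZMod p)ˣ) : ZMod p) := by
        refine (hcl (y * y₂)).resolve_left ?_
        rintro ⟨t, ht⟩
        apply hy₂ (s⁻¹ * t)
        rw [map_mul, Units.val_mul, hs, smul_mul_assoc, one_mul] at ht
        rw [mul_smul, ← ht, smul_smul, inv_mul_cancel₀ hs0, one_smul]
      rw [map_mul, map_mul, Units.val_mul, Units.val_mul, Matrix.det_mul, h3] at h4
      exact hne (mul_right_cancel₀ (Units.ne_zero _) h4)
    refine ⟨ρ, hρ, hdet, ?_, Or.inl rfl⟩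
    intro v hv x hx
    rcases hdich v hv x hx with ⟨s, hs⟩ | h
    · have h3 := congrFun (congrFun (mat_rel hp2 he hv hx) 0) 0
      have h4 := hdet x
      rw [hcF v hv.2.2 x hx] at h4
      rw [← h4, hs] at h3
      have hs0 : s ≠ 0 := by
        rintro rfl
        have := Pool.Agent.H502.SM.mm_det_ne ρ x
        rw [Pool.Agent.H502.SM.mm, hs, zero_smul] at this
        simp at this
      simp at h3
      rw [hs]
      simp only [Matrix.trace_fin_two, Matrix.smul_apply, Matrix.one_apply_eq, smul_eq_mul, mul_one]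
      apply mul_right_cancel₀ hs0
      linear_combination h3
    · exact h.1

end Pool.Agent.H502.EC
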