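import Pool.Agent.H502.EC.A5
import Pool.Agent.H502.SM.Fp

/-!
# Congruences from the numbers of points on many reductions
-/

set_option autoImplicit false

namespace Pool.Agent.H502.EC

open Pool.Agent.H901R3.MS Pool.Agent.Q46.FR Pool.Agent.Y673.Loc NumberField IsDedekindDomain
open Pool.Agent.W401.Cheb Pool.Agent.W275.FM Pool.Agent.W275.FMK Pool.Agent.Y673.FM
open WeierstrassCurve Matrix Filter Topology

variable {K : Type} [Field K] [NumberField K]

open scoped Classical in
/-- every matrix of determinant one is the matrix of some Galois element in some basis of the points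
of order `p` -/
def HasSLp (A B : K) (p : ℕ) : Prop :=
  ∃ P Q : EP A B, p • P = 0 ∧ p • Q = 0 ∧ (∀ R : EP A B, p • R = 0 → ∃ k m : ℤ, R = k • P + m • Q) ∧
    (∀ k m : ℤ, k • P + m • Q = 0 → (p : ℤ) ∣ k ∧ (p : ℤ) ∣ m) ∧
    ∀ a b c d : ℤ, (p : ℤ) ∣ a * d - b * c - 1 →
      ∃ x : GK K, act A B x P = a • P + c • Q ∧ act A B x Q = b • P + d • Q

open scoped Classical in
omit [NumberField K] in
theorem HasSLp.mat {A B : K} {p : ℕ} [hp : Fact p.Prime] (h : HasSLp A B p)
    {e : TT A B p ≃+ (Fin 2 → ZMod p)} {ρ : GK K →* GL (Fin 2) (ZMod p)}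
    (he : ∀ x P, e (aa A B p x P) = (ρ x).val *ᵥ e P) (N : Matrix (Fin 2) (Fin 2) (ZMod p))
    (hN : N.det = 1) : ∃ x, (ρ x).val = N := by
  obtain ⟨P, Q, hP, hQ, -, hind, hall⟩ := h
  let P' : TT A B p := ⟨P, hP⟩
  let Q' : TT A B p := ⟨Q, hQ⟩
  have hz : ∀ (k : ℤ) (c : Fin 2 → ZMod p), k • c = (k : ZMod p) • c := fun k c =>
    (Int.cast_smul_eq_zsmul (ZMod p) k c).symm
  have hzn : ∀ (w : ZMod p) (c : Fin 2 → ZMod p), w.val • c = w • c := by
    intro w c
    rw [← natCast_zsmul, hz, Int.cast_natCast, ZMod.natCast_zmod_val]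
  let M : Matrix (Fin 2) (Fin 2) (ZMod p) := !![e P' 0, e Q' 0; e P' 1, e Q' 1]
  have hM : M.det ≠ 0 := by
    intro h0
    obtain ⟨u, hu0, hu⟩ := Matrix.exists_mulVec_eq_zero_iff.mpr h0
    have h1 : (u 0).val • e P' + (u 1).val • e Q' = 0 := by
      rw [hzn, hzn]
      ext i
      have h2 := congrFun hu i
      simp only [M, Matrix.mulVec, dotProduct, Fin.sum_univ_two, Pi.zero_apply] at h2
      simp only [Pi.add_apply, Pi.smul_apply, smul_eq_mul, Pi.zero_apply]
      fin_cases i
      · simp at h2 ⊢; linear_combination h2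
      · simp at h2 ⊢; linear_combination h2
    have h2 : (u 0).val • P' + (u 1).val • Q' = 0 := by
      apply e.injective
      rw [map_add, map_nsmul, map_nsmul, h1, map_zero]
    have h3 : (((u 0).val : ℕ) : ℤ) • P + (((u 1).val : ℕ) : ℤ) • Q = 0 := by
      have := congrArg (fun R : TT A B p => (R : EP A B)) h2
      rw [natCast_zsmul, natCast_zsmul]
      exact this
    obtain ⟨h4, h5⟩ := hind _ _ h3
    apply hu0
    have key : ∀ w : ZMod p, (p : ℤ) ∣ ((w.val : ℕ) : ℤ) → w = 0 := by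
      intro w hw
      have : (p : ℕ) ∣ w.val := by exact_mod_cast hw
      rw [← ZMod.natCast_zmod_val w]
      exact (ZMod.natCast_eq_zero_iff _ _).mpr this
    ext i
    fin_cases i
    · exact key _ h4
    · exact key _ h5
  let g : GL (Fin 2) (ZMod p) := Matrix.GeneralLinearGroup.mkOfDetNeZero M hM
  have hg1 : (g⁻¹).val * M = 1 := by
    change (g⁻¹).val * g.val = 1
    rw [← Units.val_mul, inv_mul_cancel, Units.val_one]
  have hg2 : M * (g⁻¹).val = 1 := by
    change g.val * (g⁻¹).val = 1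
    rw [← Units.val_mul, mul_inv_cancel, Units.val_one]
  set T := (g⁻¹).val * N * M with hT
  have hTdet : T.det = 1 := by
    rw [hT, Matrix.det_mul, Matrix.det_mul, hN, mul_one, ← Matrix.det_mul, hg1, Matrix.det_one]
  obtain ⟨x, hx1, hx2⟩ := hall (T 0 0).val (T 0 1).val (T 1 0).val (T 1 1).val (by
    rw [Matrix.det_fin_two] at hTdet
    rw [← ZMod.intCast_zmod_eq_zero_iff_dvd]
    push_cast
    simp only [ZMod.natCast_val, ZMod.cast_id', id_eq]
    rw [hTdet, sub_self])
  refine ⟨x, ?_⟩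
  have e1 : (ρ x).val *ᵥ e P' = T 0 0 • e P' + T 1 0 • e Q' := by
    rw [← he]
    have : aa A B p x P' = (((T 0 0).val : ℕ) : ℤ) • P' + (((T 1 0).val : ℕ) : ℤ) • Q' :=
      Subtype.ext hx1
    rw [this, map_add, map_zsmul, map_zsmul, hz, hz]
    push_cast
    simp only [ZMod.natCast_val, ZMod.cast_id', id_eq]
  have e2 : (ρ x).val *ᵥ e Q' = T 0 1 • e P' + T 1 1 • e Q' := by
    rw [← he]
    have : aa A B p x Q' = (((T 0 1).val : ℕ) : ℤ) • P' + (((T 1 1).val : ℕ) : ℤ) • Q' :=
      Subtype.ext hx2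
    rw [this, map_add, map_zsmul, map_zsmul, hz, hz]
    push_cast
    simp only [ZMod.natCast_val, ZMod.cast_id', id_eq]
  have e3 : (ρ x).val * M = M * T := by
    have a1 := fun i => congrFun e1 i
    have a2 := fun i => congrFun e2 i
    simp only [Matrix.mulVec, dotProduct, Fin.sum_univ_two, Pi.add_apply, Pi.smul_apply,
      smul_eq_mul] at a1 a2
    ext i j
    fin_cases j
    · have := a1 i
      fin_cases i
      · simp [M, Matrix.mul_apply, Fin.sum_univ_two] at this ⊢; linear_combination this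
      · simp [M, Matrix.mul_apply, Fin.sum_univ_two] at this ⊢; linear_combination this
    · have := a2 i
      fin_cases i
      · simp [M, Matrix.mul_apply, Fin.sum_univ_two] at this ⊢; linear_combination this
      · simp [M, Matrix.mul_apply, Fin.sum_univ_two] at this ⊢; linear_combination this
  calc (ρ x).val = (ρ x).val * (M * (g⁻¹).val) := by rw [hg2, mul_one]
    _ = (M * T) * (g⁻¹).val := by rw [← mul_assoc, e3]
    _ = (M * (g⁻¹).val) * N * (M * (g⁻¹).val) := by rw [hT]; simp only [mul_assoc]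
    _ = N := by rw [hg2, one_mul, mul_one]

end Pool.Agent.H502.EC
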