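import Pool.Agent.H502.EC.A6

/-!
# Congruences from the numbers of points on many reductions: the theorems over number fields
-/

set_option autoImplicit false

namespace Pool.Agent.H502.EC

open Pool.Agent.H901R3.MS Pool.Agent.Q46.FR Pool.Agent.Y673.Loc NumberField IsDedekindDomain
open Pool.Agent.W401.Cheb Pool.Agent.W275.FM Pool.Agent.W275.FMK Pool.Agent.Y673.FM
open WeierstrassCurve Matrix Filter Topology Pool.Agent.H502.SM

variable {K : Type} [Field K] [NumberField K]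

theorem av_eq {A B A' B' : 𝓞 K} {p : ℕ} {v : HeightOneSpectrum (𝓞 K)}
    (h : (p : ℤ) ∣ (pts v A B : ℤ) - pts v A' B') : av A B p v = av A' B' p v := by
  unfold av
  rw [← sub_eq_zero, ← Int.cast_sub, ZMod.intCast_zmod_eq_zero_iff_dvd]
  have e : ((qv v : ℤ) + 1 - pts v A B) - ((qv v : ℤ) + 1 - pts v A' B') =
      -((pts v A B : ℤ) - pts v A' B') := by ring
  rw [e]
  exact (dvd_neg).mpr h

/-- removing finitely many places -/
theorem freq_good {P Q R : HeightOneSpectrum (𝓞 K) → Prop} (hQ : {v | Q v}.Finite)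
    (h : ∀ v, P v → ¬ Q v → R v) {δ δ' : ℝ} (hδ : δ' < δ) (hP : ∃ᶠ N in atTop, δ ≤ dens P N) :
    ∃ᶠ N in atTop, δ' ≤ dens R N := by
  have h1 := dens_finite hQ
  have h2 : ∀ᶠ N in atTop, dens Q N < δ - δ' := h1.eventually (gt_mem_nhds (by linarith))
  refine (hP.and_eventually h2).mono ?_
  rintro N ⟨h3, h4⟩
  have h5 : dens P N ≤ dens (fun v => R v ∨ Q v) N := by
    apply Pool.Agent.W528.Ord.dens_mono
    intro v hv
    by_cases hq : Q v
    · exact Or.inr hq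
    · exact Or.inl (h v hv hq)
  have h6 := Pool.Agent.W528.Ord.dens_or R Q N
  linarith

theorem large_id {p : ℕ} [Fact p.Prime] {G : Type*} [Group G] {ρ : G →* GL (Fin 2) (ZMod p)}
    (h : ∀ N : Matrix (Fin 2) (Fin 2) (ZMod p), N.det = 1 → ∃ x, (ρ x).val = N) :
    Large (RingHom.id (ZMod p)) ρ := by
  constructor
  · intro B hB
    obtain ⟨x, hx⟩ := h B hB
    refine ⟨x, 1, ?_⟩
    rw [one_smul]
    exact hx
  · intro x
    refine ⟨1, ρ x, ?_⟩
    rw [one_smul]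
    rfl

theorem noncomm {p : ℕ} [hp : Fact p.Prime] {G : Type*} [Group G] {ρ : G →* GL (Fin 2) (ZMod p)}
    (h : ∀ N : Matrix (Fin 2) (Fin 2) (ZMod p), N.det = 1 → ∃ x, (ρ x).val = N) :
    ∃ x y, ρ x * ρ y ≠ ρ y * ρ x := by
  obtain ⟨x, hx⟩ := h (Up 1) (by simp [Up, Matrix.det_fin_two])
  obtain ⟨y, hy⟩ := h (Lo 1) (by simp [Lo, Matrix.det_fin_two])
  refine ⟨x, y, fun hxy => ?_⟩
  have h1 := congrArg Units.val hxy
  rw [Units.val_mul, Units.val_mul, hx, hy] at h1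
  have h2 := congrFun (congrFun h1 0) 0
  simp [Up, Lo, Matrix.mul_apply, Fin.sum_univ_two] at h2

open scoped Classical in
/-- the isomorphism from a matrix -/
theorem exists_iso {A B A' B' : K} {p : ℕ} [hp : Fact p.Prime]
    {e : TT A B p ≃+ (Fin 2 → ZMod p)} {ρ : GK K →* GL (Fin 2) (ZMod p)}
    (he : ∀ x P, e (aa A B p x P) = (ρ x).val *ᵥ e P)
    {e' : TT A' B' p ≃+ (Fin 2 → ZMod p)} {ρ' : GK K →* GL (Fin 2) (ZMod p)}
    (he' : ∀ x P, e' (aa A' B' p x P) = (ρ' x).val *ᵥ e' P) {P : GL (Fin 2) (ZMod p)}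
    {s : GK K → ℤ} (h : ∀ x, (s x : ZMod p) • (ρ' x).val = P.val * (ρ x).val * (P⁻¹).val) :
    ∃ f : TT A B p ≃+ TT A' B' p, ∀ x R, f (aa A B p x R) = s x • aa A' B' p x (f R) := by
  have hP1 : (P⁻¹).val * P.val = 1 := by rw [← Units.val_mul, inv_mul_cancel, Units.val_one]
  have hP2 : P.val * (P⁻¹).val = 1 := by rw [← Units.val_mul, mul_inv_cancel, Units.val_one]
  let m : (Fin 2 → ZMod p) ≃+ (Fin 2 → ZMod p) :=
    { toFun := fun c => P.val *ᵥ c
      invFun := fun c => (P⁻¹).val *ᵥ c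
      left_inv := fun c => by
        change (P⁻¹).val *ᵥ (P.val *ᵥ c) = c
        rw [Matrix.mulVec_mulVec, hP1, Matrix.one_mulVec]
      right_inv := fun c => by
        change P.val *ᵥ ((P⁻¹).val *ᵥ c) = c
        rw [Matrix.mulVec_mulVec, hP2, Matrix.one_mulVec]
      map_add' := fun c d => Matrix.mulVec_add _ _ _ }
  refine ⟨(e.trans m).trans e'.symm, fun x R => ?_⟩
  apply e'.injective
  rw [map_zsmul, he']
  simp only [AddEquiv.trans_apply, AddEquiv.apply_symm_apply]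
  change P.val *ᵥ e (aa A B p x R) = s x • (ρ' x).val *ᵥ (P.val *ᵥ e R)
  rw [he, Matrix.mulVec_mulVec, ← Int.cast_smul_eq_zsmul (ZMod p), Matrix.mulVec_mulVec,
    ← Matrix.smul_mulVec]
  congr 1
  rw [← smul_mul_assoc, h, mul_assoc, hP1, mul_one]

open scoped Classical in
/-- **The exact threshold.** -/
theorem main_congr_two {A B A' B' : 𝓞 K} (hD : 4 * A ^ 3 + 27 * B ^ 2 ≠ 0)
    (hD' : 4 * A' ^ 3 + 27 * B' ^ 2 ≠ 0) {p : ℕ} [hp : Fact p.Prime] (h5 : 5 ≤ p)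
    (hSL : HasSLp (A : K) (B : K) p) {δ : ℝ} (hδ : (p : ℝ) / (2 * (p - 1)) < δ)
    (hG : ∃ᶠ N in atTop, δ ≤ dens (fun v : HeightOneSpectrum (𝓞 K) =>
      (p : ℤ) ∣ (pts v A B : ℤ) - pts v A' B') N) :
    ∃ f : TT (A : K) (B : K) p ≃+ TT (A' : K) (B' : K) p,
      ∀ x R, f (aa (A : K) (B : K) p x R) = aa (A' : K) (B' : K) p x (f R) := by
  have hp2 : p ≠ 2 := by omega
  obtain ⟨c, hc, hcF⟩ := exists_cyc K p
  obtain ⟨e, ρ, he, hρ⟩ := exists_rep (coe_disc_ne hD) p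
  obtain ⟨e', ρ', he', hρ'⟩ := exists_rep (coe_disc_ne hD') p
  have hmat := hSL.mat he
  obtain ⟨x₀, y₀, hxy⟩ := noncomm hmat
  obtain ⟨τ, hτo, -, hτ, hτ'⟩ := exists_trace_rep hD hp2 hc hcF he hρ
  obtain ⟨τ', hτo', -, hτt', hτ''⟩ := exists_trace_rep hD' hp2 hc hcF he' hρ'
  have e1 : τ = ρ := hτ'.resolve_right fun h => hxy (h.1 x₀ y₀)
  subst e1
  obtain ⟨δ', hδ1, hδ2⟩ := exists_between hδ
  have hfr := freq_good (R := fun v => ∃ x, IsFrob v x ∧ (τ x).val.trace = (τ' x).val.trace)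
    ((finite_bad hD (p := p) hp.out.ne_zero).union (finite_bad hD' (p := p) hp.out.ne_zero))
    (by
      intro v hv hnv
      have hv1 : GoodPl A B p v := by
        by_contra h; exact hnv (Or.inl h)
      have hv2 : GoodPl A' B' p v := by
        by_contra h; exact hnv (Or.inr h)
      obtain ⟨x, hx⟩ := Pool.Agent.W401.Frob.exists_frob v
      exact ⟨x, hx, by rw [hτ v hv1 x hx, hτt' v hv2 x hx, av_eq hv]⟩) hδ2 hG
  obtain ⟨P, hP⟩ := main_two h5 (large_id hmat) hτo hτo' _ hfr (by rw [ZMod.card]; exact hδ1)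
    (fun v hv => hv)
  have e2 : τ' = ρ' := by
    refine hτ''.resolve_right fun h => hxy ?_
    have h1 := h.2 x₀ y₀
    rw [hP, hP] at h1
    have h2 : P * (τ x₀ * τ y₀) * P⁻¹ = P * (τ y₀ * τ x₀) * P⁻¹ := by
      calc P * (τ x₀ * τ y₀) * P⁻¹ = P * τ x₀ * P⁻¹ * (P * τ y₀ * P⁻¹) := by group
        _ = P * τ y₀ * P⁻¹ * (P * τ x₀ * P⁻¹) := h1
        _ = _ := by group
    exact mul_left_cancel (mul_right_cancel h2)
  subst e2
  obtain ⟨f, hf⟩ := exists_iso he he' (P := P) (s := fun _ => 1) (by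
    intro x
    rw [Int.cast_one, one_smul, hP]
    rfl)
  exact ⟨f, fun x R => by rw [hf, one_smul]⟩

open scoped Classical in
/-- **Small density, up to a quadratic character.** -/
theorem main_congr_one {A B A' B' : 𝓞 K} (hD : 4 * A ^ 3 + 27 * B ^ 2 ≠ 0)
    (hD' : 4 * A' ^ 3 + 27 * B' ^ 2 ≠ 0) {p : ℕ} [hp : Fact p.Prime] (h5 : 5 ≤ p)
    (hSL : HasSLp (A : K) (B : K) p) {δ : ℝ} (hδ : (1 : ℝ) / (p - 1) < δ)
    (hG : ∃ᶠ N in atTop, δ ≤ dens (fun v : HeightOneSpectrum (𝓞 K) =>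
      (p : ℤ) ∣ (pts v A B : ℤ) - pts v A' B') N) :
    ∃ (f : TT (A : K) (B : K) p ≃+ TT (A' : K) (B' : K) p) (ε : GK K →* ℤˣ),
      IsOpen (ε.ker : Set (GK K)) ∧
      ∀ x R, f (aa (A : K) (B : K) p x R) = ((ε x : ℤˣ) : ℤ) • aa (A' : K) (B' : K) p x (f R) := by
  have hp2 : p ≠ 2 := by omega
  obtain ⟨c, hc, hcF⟩ := exists_cyc K p
  obtain ⟨e, ρ, he, hρ⟩ := exists_rep (coe_disc_ne hD) p
  obtain ⟨e', ρ', he', hρ'⟩ := exists_rep (coe_disc_ne hD') p
  have hmat := hSL.mat he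
  obtain ⟨x₀, y₀, hxy⟩ := noncomm hmat
  obtain ⟨τ, hτo, hτd, hτ, hτ'⟩ := exists_trace_rep hD hp2 hc hcF he hρ
  obtain ⟨τ', hτo', hτd', hτt', hτ''⟩ := exists_trace_rep hD' hp2 hc hcF he' hρ'
  have e1 : τ = ρ := hτ'.resolve_right fun h => hxy (h.1 x₀ y₀)
  subst e1
  obtain ⟨δ', hδ1, hδ2⟩ := exists_between hδ
  have hcast : ∀ a : ZMod p, ZMod.castHom (dvd_refl p) (ZMod p) a = a := by
    intro a
    have : ZMod.castHom (dvd_refl p) (ZMod p) = RingHom.id (ZMod p) := Subsingleton.elim _ _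
    rw [this]; rfl
  have hfr := freq_good (R := fun v => ∃ x, IsFrob v x ∧
      (τ' x).val.trace = ZMod.castHom (dvd_refl p) (ZMod p) (τ x).val.trace)
    ((finite_bad hD (p := p) hp.out.ne_zero).union (finite_bad hD' (p := p) hp.out.ne_zero))
    (by
      intro v hv hnv
      have hv1 : GoodPl A B p v := by
        by_contra h; exact hnv (Or.inl h)
      have hv2 : GoodPl A' B' p v := by
        by_contra h; exact hnv (Or.inr h)
      obtain ⟨x, hx⟩ := Pool.Agent.W401.Frob.exists_frob v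
      exact ⟨x, hx, by rw [hcast, hτ v hv1 x hx, hτt' v hv2 x hx, av_eq hv]⟩) hδ2 hG
  obtain ⟨P, ε, hε, hP⟩ := main_fp (k := ZMod p) h5 τ hτo hmat τ' hτo' (by
    intro x; rw [hcast, hτd, hτd']) _ hfr hδ1 (fun v hv => hv)
  have hmap : ∀ x, (τ x).val.map (ZMod.castHom (dvd_refl p) (ZMod p)) = (τ x).val := by
    intro x
    ext i j
    rw [Matrix.map_apply, hcast]
  simp only [hmap] at hP
  have hsq : ∀ x, (((ε x : ℤˣ) : ℤ) : ZMod p) * (((ε x : ℤˣ) : ℤ) : ZMod p) = 1 := by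
    intro x
    rw [← Int.cast_mul, ← Units.val_mul, Int.units_mul_self, Units.val_one, Int.cast_one]
  have hP' : ∀ x, (((ε x : ℤˣ) : ℤ) : ZMod p) • (τ' x).val = P.val * (τ x).val * (P⁻¹).val := by
    intro x
    rw [hP, smul_smul, hsq, one_smul]
  have e2 : τ' = ρ' := by
    refine hτ''.resolve_right fun h => hxy ?_
    have h1 := congrArg Units.val (h.2 x₀ y₀)
    rw [Units.val_mul, Units.val_mul] at h1
    have h2 : P.val * ((τ x₀).val * (τ y₀).val) * (P⁻¹).val =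
        P.val * ((τ y₀).val * (τ x₀).val) * (P⁻¹).val := by
      calc P.val * ((τ x₀).val * (τ y₀).val) * (P⁻¹).val =
          (P.val * (τ x₀).val * (P⁻¹).val) * (P.val * (τ y₀).val * (P⁻¹).val) := by
            simp only [mul_assoc]
            rw [← mul_assoc (P⁻¹).val P.val, val_inv_mul, one_mul]
        _ = (P.val * (τ y₀).val * (P⁻¹).val) * (P.val * (τ x₀).val * (P⁻¹).val) := by
            rw [← hP', ← hP', smul_mul_smul_comm, smul_mul_smul_comm, h1, mul_comm (((ε x₀ : ℤˣ) : ℤ) : ZMod p)]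
        _ = _ := by
            simp only [mul_assoc]
            rw [← mul_assoc (P⁻¹).val P.val, val_inv_mul, one_mul]
    have h3 := congrArg (fun M => (P⁻¹).val * M * P.val) h2
    simp only [mul_assoc, val_inv_mul, mul_one] at h3
    rw [← mul_assoc (P⁻¹).val P.val, ← mul_assoc (P⁻¹).val P.val, val_inv_mul, one_mul, one_mul] at h3
    exact Units.ext h3
  subst e2
  obtain ⟨f, hf⟩ := exists_iso he he' (P := P) (s := fun x => ((ε x : ℤˣ) : ℤ)) hP'
  exact ⟨f, ε, hε, hf⟩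

end Pool.Agent.H502.EC
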