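import Pool.Agent.H502.EC.A7
import Pool.Graph.R_pool_sql_team_seeded_3997aac3.Q46.FR.Tw

/-!
# Quadratic characters and quadratic twists
-/

set_option autoImplicit false

namespace Pool.Agent.H502.EC

open Pool.Agent.H901R3.MS Pool.Agent.Q46.FR Pool.Agent.Y673.Loc NumberField IsDedekindDomain
open Pool.Agent.W401.Cheb Pool.Agent.W275.FM Pool.Agent.W275.FMK Pool.Agent.Y673.FM
open WeierstrassCurve Matrix Filter Topology Pool.Agent.H502.SM

variable {K : Type} [Field K] [NumberField K]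

/-- an element on which the Galois group acts through a given quadratic character -/
theorem exists_sqrt (ε : GK K →* ℤˣ) (hε : IsOpen (ε.ker : Set (GK K))) :
    ∃ (d : K) (s : AlgebraicClosure K), d ≠ 0 ∧ s ^ 2 = algebraMap K (AlgebraicClosure K) d ∧
      ∀ x : GK K, x s = ((ε x : ℤˣ) : ℤ) • s := by
  by_cases htriv : ∀ x, ε x = 1
  · refine ⟨1, 1, one_ne_zero, by rw [one_pow, map_one], fun x => ?_⟩
    rw [htriv, Units.val_one, one_smul, map_one]
  push Not at htriv
  obtain ⟨y, hy⟩ := htriv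
  have hy' : ε y = -1 := (Int.units_eq_one_or _).resolve_left hy
  have hcl : IsClosed (ε.ker : Set (GK K)) := Subgroup.isClosed_of_isOpen _ hε
  let H : ClosedSubgroup (GK K) := ⟨ε.ker, hcl⟩
  have hfix : (IntermediateField.fixedField (F := K) (E := AlgebraicClosure K) ε.ker).fixingSubgroup = ε.ker :=
    InfiniteGalois.fixingSubgroup_fixedField H
  have hynot : y ∉ (IntermediateField.fixedField (F := K) (E := AlgebraicClosure K) ε.ker).fixingSubgroup := by
    rw [hfix, MonoidHom.mem_ker]; exact hy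
  rw [IntermediateField.mem_fixingSubgroup_iff] at hynot
  push Not at hynot
  obtain ⟨α, hα, hne⟩ := hynot
  have hα' : ∀ u ∈ ε.ker, u α = α := fun u hu => hα ⟨u, hu⟩
  set s : AlgebraicClosure K := α - y α with hs
  have hs0 : s ≠ 0 := fun h => hne (sub_eq_zero.1 h).symm
  have hU : ∀ u ∈ ε.ker, u s = s := by
    intro u hu
    have h1 : (y⁻¹ * u * y) ∈ ε.ker := by
      rw [MonoidHom.mem_ker] at hu ⊢
      rw [map_mul, map_mul, map_inv, hu, mul_one, inv_mul_cancel]
    have h2 : (y⁻¹ * u * y) α = α := hα' _ h1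
    have h3 : u (y α) = y α := by
      have h4 : y ((y⁻¹ * u * y) α) = y α := by rw [h2]
      have h5 : y ((y⁻¹ * u * y) α) = u (y α) := by
        change (y * (y⁻¹ * u * y)) α = (u * y) α
        rw [← mul_assoc, mul_inv_cancel_left]
      rw [← h5, h4]
    rw [hs, map_sub, hα' u hu, h3]
  have hyy : y (y α) = α := by
    have h1 : y * y ∈ ε.ker := by
      rw [MonoidHom.mem_ker, map_mul, hy']; norm_num
    exact hα' _ h1
  have hys : y s = -s := by
    rw [hs, map_sub, hyy, neg_sub]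
  have hall : ∀ x : GK K, x s = ((ε x : ℤˣ) : ℤ) • s := by
    intro x
    rcases Int.units_eq_one_or (ε x) with h | h
    · rw [h, Units.val_one, one_smul]
      exact hU x (MonoidHom.mem_ker.2 h)
    · have h1 : y⁻¹ * x ∈ ε.ker := by
        rw [MonoidHom.mem_ker, map_mul, map_inv, hy', h]; norm_num
      have h2 : (y⁻¹ * x) s = s := hU _ h1
      have h3 : y ((y⁻¹ * x) s) = y s := by rw [h2]
      have h4 : y ((y⁻¹ * x) s) = x s := by
        change (y * (y⁻¹ * x)) s = x s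
        rw [mul_inv_cancel_left]
      rw [← h4, h3, hys, h, Units.val_neg, Units.val_one, neg_smul, one_smul]
  have hsq : ∀ x : GK K, x (s ^ 2) = s ^ 2 := by
    intro x
    rw [map_pow, hall]
    rcases Int.units_eq_one_or (ε x) with h | h
    · rw [h, Units.val_one, one_smul]
    · rw [h, Units.val_neg, Units.val_one, neg_smul, one_smul, neg_sq]
  obtain ⟨d, hd⟩ := (InfiniteGalois.mem_range_algebraMap_iff_fixed (k := K) (K := AlgebraicClosure K) (s ^ 2)).2 hsq
  refine ⟨d, s, ?_, hd.symm, hall⟩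
  rintro rfl
  rw [map_zero] at hd
  exact hs0 (pow_eq_zero_iff two_ne_zero |>.1 hd.symm)

/-- the same with an integral element -/
theorem exists_sqrt_int (ε : GK K →* ℤˣ) (hε : IsOpen (ε.ker : Set (GK K))) :
    ∃ (d : 𝓞 K) (s : AlgebraicClosure K), d ≠ 0 ∧ s ^ 2 = algebraMap K (AlgebraicClosure K) d ∧
      ∀ x : GK K, x s = ((ε x : ℤˣ) : ℤ) • s := by
  obtain ⟨d, s, hd, hs, hx⟩ := exists_sqrt ε hε
  obtain ⟨a, b, hb, hab⟩ := IsFractionRing.div_surjective (A := 𝓞 K) d
  have hb0 : b ≠ 0 := nonZeroDivisors.ne_zero hb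
  have hb0' : (algebraMap (𝓞 K) K b) ≠ 0 := by
    rw [Ne, FaithfulSMul.algebraMap_eq_zero_iff]; exact hb0
  have ha0 : a ≠ 0 := by
    rintro rfl
    rw [map_zero, zero_div] at hab
    exact hd hab.symm
  refine ⟨a * b, algebraMap K (AlgebraicClosure K) (algebraMap (𝓞 K) K b) * s, mul_ne_zero ha0 hb0,
    ?_, fun x => ?_⟩
  · rw [mul_pow, hs, ← hab, ← map_pow, ← map_mul]
    congr 1
    change _ = algebraMap (𝓞 K) K (a * b)
    rw [map_mul]
    field_simp
  · rw [map_mul, AlgEquiv.commutes, hx, mul_smul_comm]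

open scoped Classical in
/-- restriction of a bijective homomorphism to the torsion -/
theorem exists_restrict {A B A' B' : K} (p : ℕ) (Θ : EP A B →+ EP A' B') (hΘ : Function.Bijective Θ) :
    ∃ g : TT A B p ≃+ TT A' B' p, ∀ R, ((g R : TT A' B' p) : EP A' B') = Θ R := by
  let e : EP A B ≃+ EP A' B' := AddEquiv.ofBijective Θ hΘ
  have h1 : ∀ P, P ∈ TT A B p → e P ∈ TT A' B' p := by
    intro P hP
    rw [mem_TT] at hP ⊢
    rw [← map_nsmul, hP, map_zero]
  have h2 : ∀ P, P ∈ TT A' B' p → e.symm P ∈ TT A B p := by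
    intro P hP
    rw [mem_TT] at hP ⊢
    rw [← map_nsmul, hP, map_zero]
  refine ⟨{ toFun := fun R => ⟨e R, h1 _ R.2⟩
            invFun := fun R => ⟨e.symm R, h2 _ R.2⟩
            left_inv := fun R => by
              apply Subtype.ext
              exact e.symm_apply_apply _
            right_inv := fun R => by
              apply Subtype.ext
              exact e.apply_symm_apply _
            map_add' := fun R S => by
              apply Subtype.ext
              exact map_add e _ _ }, fun R => rfl⟩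

open scoped Classical in
/-- from a congruence up to a quadratic character to a congruence with a quadratic twist -/
theorem exists_twist_iso {A B : 𝓞 K} {A' B' : K} {p : ℕ}
    (f : TT (A : K) (B : K) p ≃+ TT A' B' p) (ε : GK K →* ℤˣ) (hε : IsOpen (ε.ker : Set (GK K)))
    (hf : ∀ x R, f (aa (A : K) (B : K) p x R) = ((ε x : ℤˣ) : ℤ) • aa A' B' p x (f R)) :
    ∃ d : 𝓞 K, d ≠ 0 ∧ ∃ g : TT ((A * d ^ 2 : 𝓞 K) : K) ((B * d ^ 3 : 𝓞 K) : K) p ≃+ TT A' B' p,
      ∀ x R, g (aa ((A * d ^ 2 : 𝓞 K) : K) ((B * d ^ 3 : 𝓞 K) : K) p x R) = aa A' B' p x (g R) := by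
  obtain ⟨d, s, hd, hs, hx⟩ := exists_sqrt_int ε hε
  have hs0 : s ≠ 0 := by
    rintro rfl
    rw [zero_pow two_ne_zero] at hs
    have h1 : (d : K) = 0 := (map_eq_zero _).1 hs.symm
    exact hd (by exact_mod_cast h1)
  obtain ⟨Θ, hΘ, hΘx⟩ := exists_tw (A : K) (B : K) ((A * d ^ 2 : 𝓞 K) : K) ((B * d ^ 3 : 𝓞 K) : K) s hs0
    (by
      unfold ca
      rw [show (s ^ 4) = (s ^ 2) ^ 2 by ring, hs, ← map_pow, ← map_mul]
      congr 1
      change algebraMap (𝓞 K) K (A * d ^ 2) = (algebraMap (𝓞 K) K d) ^ 2 * algebraMap (𝓞 K) K A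
      rw [map_mul, map_pow, mul_comm])
    (by
      unfold ca
      rw [show (s ^ 6) = (s ^ 2) ^ 3 by ring, hs, ← map_pow, ← map_mul]
      congr 1
      change algebraMap (𝓞 K) K (B * d ^ 3) = (algebraMap (𝓞 K) K d) ^ 3 * algebraMap (𝓞 K) K B
      rw [map_mul, map_pow, mul_comm])
  obtain ⟨g, hg⟩ := exists_restrict p Θ hΘ
  have hgx : ∀ x R, g (aa (A : K) (B : K) p x R) = ((ε x : ℤˣ) : ℤ) •
      aa ((A * d ^ 2 : 𝓞 K) : K) ((B * d ^ 3 : 𝓞 K) : K) p x (g R) := by
    intro x R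
    apply Subtype.ext
    rw [hg]
    rcases Int.units_eq_one_or (ε x) with h | h
    · rw [h, Units.val_one, one_smul]
      have h1 := (hΘx x).1 (by rw [hx, h, Units.val_one, one_smul]) R
      change Θ (act _ _ x R) = act _ _ x (g R : EP _ _)
      rw [h1, hg]
    · rw [h, Units.val_neg, Units.val_one, neg_smul, one_smul]
      have h1 := (hΘx x).2 (by rw [hx, h, Units.val_neg, Units.val_one, neg_smul, one_smul]) R
      change Θ (act _ _ x R) = -act _ _ x (g R : EP _ _)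
      rw [h1, hg]
  have hsq : ∀ x, ((ε x : ℤˣ) : ℤ) * ((ε x : ℤˣ) : ℤ) = 1 := by
    intro x
    rw [← Units.val_mul, Int.units_mul_self, Units.val_one]
  refine ⟨d, hd, g.symm.trans f, fun x R => ?_⟩
  obtain ⟨S, rfl⟩ := g.surjective R
  have h1 : aa ((A * d ^ 2 : 𝓞 K) : K) ((B * d ^ 3 : 𝓞 K) : K) p x (g S) =
      g (((ε x : ℤˣ) : ℤ) • aa (A : K) (B : K) p x S) := by
    rw [map_zsmul, hgx, smul_smul, hsq, one_smul]
  rw [h1]
  simp only [AddEquiv.trans_apply, AddEquiv.symm_apply_apply]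
  rw [map_zsmul, hf, smul_smul, hsq, one_smul]

open scoped Classical in
/-- **Small density: congruence with a quadratic twist.** -/
theorem main_congr_twist {A B A' B' : 𝓞 K} (hD : 4 * A ^ 3 + 27 * B ^ 2 ≠ 0)
    (hD' : 4 * A' ^ 3 + 27 * B' ^ 2 ≠ 0) {p : ℕ} [hp : Fact p.Prime] (h5 : 5 ≤ p)
    (hSL : HasSLp (A : K) (B : K) p) {δ : ℝ} (hδ : (1 : ℝ) / (p - 1) < δ)
    (hG : ∃ᶠ N in atTop, δ ≤ dens (fun v : HeightOneSpectrum (𝓞 K) =>
      (p : ℤ) ∣ (pts v A B : ℤ) - pts v A' B') N) :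
    ∃ d : 𝓞 K, d ≠ 0 ∧ ∃ g : TT ((A * d ^ 2 : 𝓞 K) : K) ((B * d ^ 3 : 𝓞 K) : K) p ≃+
        TT (A' : K) (B' : K) p,
      ∀ x R, g (aa ((A * d ^ 2 : 𝓞 K) : K) ((B * d ^ 3 : 𝓞 K) : K) p x R) =
        aa (A' : K) (B' : K) p x (g R) := by
  obtain ⟨f, ε, hε, hf⟩ := main_congr_one hD hD' h5 hSL hδ hG
  exact exists_twist_iso f ε hε hf

end Pool.Agent.H502.EC
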