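import Pool.Agent.H502.EC.A8

/-!
# Upper densities; the converse statements
-/

set_option autoImplicit false

namespace Pool.Agent.H502.EC

open Pool.Agent.H901R3.MS Pool.Agent.Q46.FR Pool.Agent.Y673.Loc NumberField IsDedekindDomain
open Pool.Agent.W401.Cheb Pool.Agent.W275.FM Pool.Agent.W275.FMK Pool.Agent.Y673.FM
open WeierstrassCurve Matrix Filter Topology Pool.Agent.H502.SM

variable {K : Type} [Field K] [NumberField K]

/-- the upper density of a set of places is greater than `c` -/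
def UGT (S : Set (HeightOneSpectrum (𝓞 K))) (c : ℝ) : Prop :=
  ∃ δ > c, ∀ M : ℕ, ∃ N ≥ M,
    δ * ({v : HeightOneSpectrum (𝓞 K) | Ideal.absNorm v.asIdeal ≤ N}.ncard : ℝ) ≤
      ({v : HeightOneSpectrum (𝓞 K) | v ∈ S ∧ Ideal.absNorm v.asIdeal ≤ N}.ncard : ℝ)

theorem dens_eq (P : HeightOneSpectrum (𝓞 K) → Prop) (N : ℕ) :
    dens P N = ({v : HeightOneSpectrum (𝓞 K) | P v ∧ Ideal.absNorm v.asIdeal ≤ N}.ncard : ℝ) /
      (Nat.primeCounting N : ℝ) := by
  unfold dens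
  have h : Nat.card {v : HeightOneSpectrum (𝓞 K) // Ideal.absNorm v.asIdeal ≤ N ∧ P v} =
      {v : HeightOneSpectrum (𝓞 K) | P v ∧ Ideal.absNorm v.asIdeal ≤ N}.ncard := by
    have h1 : {v : HeightOneSpectrum (𝓞 K) | P v ∧ Ideal.absNorm v.asIdeal ≤ N} =
        {v : HeightOneSpectrum (𝓞 K) | Ideal.absNorm v.asIdeal ≤ N ∧ P v} := by
      ext v; exact and_comm
    rw [h1]
    exact Nat.card_coe_set_eq _
  rw [h]

theorem dens_true (N : ℕ) :
    dens (fun _ : HeightOneSpectrum (𝓞 K) => True) N =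
      ({v : HeightOneSpectrum (𝓞 K) | Ideal.absNorm v.asIdeal ≤ N}.ncard : ℝ) /
      (Nat.primeCounting N : ℝ) := by
  rw [dens_eq]
  congr 3
  ext v
  simp

theorem dens_all : Tendsto (dens (fun _ : HeightOneSpectrum (𝓞 K) => True)) atTop (𝓝 1) := by
  have h := Pool.Agent.W528.Ord.chebK K (⊤ : Subgroup (GK K)) isOpen_univ Set.univ
    (fun _ _ _ => Set.mem_univ _) (fun _ _ _ _ => Set.mem_univ _)
  have h1 : (fun v : HeightOneSpectrum (𝓞 K) => ∃ σ ∈ (Set.univ : Set (GK K)), IsFrob v σ) =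
      fun _ => True := by
    funext v
    refine propext ⟨fun _ => trivial, fun _ => ?_⟩
    obtain ⟨x, hx⟩ := Pool.Agent.W401.Frob.exists_frob v
    exact ⟨x, Set.mem_univ _, hx⟩
  rw [h1] at h
  have h2 : (((QuotientGroup.mk : GK K → GK K ⧸ (⊤ : Subgroup (GK K))) '' Set.univ).ncard : ℝ) /
      (Nat.card (GK K ⧸ (⊤ : Subgroup (GK K))) : ℝ) = 1 := by
    have h3 : Nat.card (GK K ⧸ (⊤ : Subgroup (GK K))) = 1 := Subgroup.index_top
    rw [Set.image_univ, QuotientGroup.range_mk, Set.ncard_univ, h3]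
    norm_num
  rw [h2] at h
  exact h

theorem UGT.freq {S : Set (HeightOneSpectrum (𝓞 K))} {c : ℝ} (hc : 0 ≤ c) (h : UGT S c) :
    ∃ δ > c, ∃ᶠ N in atTop, δ ≤ dens (fun v => v ∈ S) N := by
  obtain ⟨δ, hδ, hM⟩ := h
  obtain ⟨δ', h1, h2⟩ := exists_between hδ
  refine ⟨δ', h1, ?_⟩
  have hδ0 : 0 < δ := lt_of_le_of_lt hc hδ
  have h3 : ∀ᶠ N in atTop, δ' / δ < dens (fun _ : HeightOneSpectrum (𝓞 K) => True) N :=
    dens_all.eventually (lt_mem_nhds (by rw [div_lt_one hδ0]; exact h2))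
  have h4 : ∃ᶠ N in atTop, δ * ({v : HeightOneSpectrum (𝓞 K) | Ideal.absNorm v.asIdeal ≤ N}.ncard : ℝ) ≤
      ({v : HeightOneSpectrum (𝓞 K) | v ∈ S ∧ Ideal.absNorm v.asIdeal ≤ N}.ncard : ℝ) := by
    rw [frequently_atTop]
    exact hM
  refine (h4.and_eventually h3).mono ?_
  rintro N ⟨h5, h6⟩
  rw [dens_true] at h6
  rw [dens_eq]
  have hπ : (0 : ℝ) ≤ (Nat.primeCounting N : ℝ) := Nat.cast_nonneg _
  calc δ' = δ * (δ' / δ) := by field_simp
    _ ≤ δ * (({v : HeightOneSpectrum (𝓞 K) | Ideal.absNorm v.asIdeal ≤ N}.ncard : ℝ) /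
      (Nat.primeCounting N : ℝ)) := mul_le_mul_of_nonneg_left h6.le hδ0.le
    _ = δ * ({v : HeightOneSpectrum (𝓞 K) | Ideal.absNorm v.asIdeal ≤ N}.ncard : ℝ) /
      (Nat.primeCounting N : ℝ) := (mul_div_assoc _ _ _).symm
    _ ≤ _ := div_le_div_of_nonneg_right h5 hπ

theorem ugt_of_tendsto {P : HeightOneSpectrum (𝓞 K) → Prop} {L c : ℝ}
    (h : Tendsto (dens P) atTop (𝓝 L)) (hc : c < L) : UGT {v | P v} c := by
  obtain ⟨δ, h1, h2⟩ := exists_between hc
  refine ⟨δ, h1, ?_⟩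
  have h3 : Tendsto (fun N => δ * dens (fun _ : HeightOneSpectrum (𝓞 K) => True) N) atTop (𝓝 δ) := by
    have := (dens_all (K := K)).const_mul δ
    rwa [mul_one] at this
  obtain ⟨m, h4, h5⟩ := exists_between h2
  have h6 : ∀ᶠ N in atTop, δ * dens (fun _ : HeightOneSpectrum (𝓞 K) => True) N < m :=
    h3.eventually (gt_mem_nhds h4)
  have h7 : ∀ᶠ N in atTop, m < dens P N := h.eventually (lt_mem_nhds h5)
  have h8 : ∀ᶠ N : ℕ in atTop, (0 : ℝ) < (Nat.primeCounting N : ℝ) :=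
    tendsto_primeCounting.eventually (eventually_gt_atTop 0)
  intro M
  obtain ⟨N, hN, h9, h10, h11⟩ := ((eventually_ge_atTop M).and (h6.and (h7.and h8))).exists
  refine ⟨N, hN, ?_⟩
  rw [dens_true] at h9
  rw [dens_eq] at h10
  have h12 := (h9.trans h10).le
  rw [← mul_div_assoc, div_le_div_iff_of_pos_right h11] at h12
  exact h12

theorem UGT.mono {S T : Set (HeightOneSpectrum (𝓞 K))} {c : ℝ}
    (hfin : ∀ N : ℕ, {v : HeightOneSpectrum (𝓞 K) | Ideal.absNorm v.asIdeal ≤ N}.Finite)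
    (hST : S ⊆ T) (h : UGT S c) : UGT T c := by
  obtain ⟨δ, hδ, hM⟩ := h
  refine ⟨δ, hδ, fun M => ?_⟩
  obtain ⟨N, hN, h1⟩ := hM M
  refine ⟨N, hN, h1.trans ?_⟩
  have h2 : {v : HeightOneSpectrum (𝓞 K) | v ∈ S ∧ Ideal.absNorm v.asIdeal ≤ N} ⊆
      {v | v ∈ T ∧ Ideal.absNorm v.asIdeal ≤ N} := fun v hv => ⟨hST hv.1, hv.2⟩
  have h3 : {v : HeightOneSpectrum (𝓞 K) | v ∈ T ∧ Ideal.absNorm v.asIdeal ≤ N} ⊆
      {v | Ideal.absNorm v.asIdeal ≤ N} := fun v hv => hv.2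
  exact_mod_cast Set.ncard_le_ncard h2 ((hfin N).subset h3)

open scoped Classical in
/-- a Frobenius element compatible with a bijection forces the congruence of the numbers of points -/
theorem dvd_of_congr {A B A' B' : 𝓞 K} {p : ℕ} [hp : Fact p.Prime] (hp2 : p ≠ 2)
    (hD' : 4 * A' ^ 3 + 27 * B' ^ 2 ≠ 0)
    (f : TT (A : K) (B : K) p ≃+ TT (A' : K) (B' : K) p) {v : HeightOneSpectrum (𝓞 K)}
    (hv : GoodPl A B p v) (hv' : GoodPl A' B' p v) {x : GK K} (hx : IsFrob v x)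
    (hf : ∀ R, f (aa (A : K) (B : K) p x R) = aa (A' : K) (B' : K) p x (f R)) :
    (p : ℤ) ∣ (pts v A B : ℤ) - pts v A' B' := by
  have key : ∀ R : TT (A : K) (B : K) p,
      ((pts v A B : ℤ) - pts v A' B') • aa (A' : K) (B' : K) p x (f R) = 0 := by
    intro R
    have h1 : aa (A : K) (B : K) p x (aa (A : K) (B : K) p x R) -
        ((qv v : ℤ) + 1 - pts v A B) • aa (A : K) (B : K) p x R + (qv v : ℤ) • R = 0 := by
      apply Subtype.ext
      exact rel_EP A B v hv.1 hv.2.1 hp.out hp2 hv.2.2 hx R R.2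
    have h2 := congrArg f h1
    rw [map_add, map_sub, map_zsmul, map_zsmul, hf, hf, map_zero] at h2
    have h3 : aa (A' : K) (B' : K) p x (aa (A' : K) (B' : K) p x (f R)) -
        ((qv v : ℤ) + 1 - pts v A' B') • aa (A' : K) (B' : K) p x (f R) + (qv v : ℤ) • f R = 0 := by
      apply Subtype.ext
      exact rel_EP A' B' v hv'.1 hv'.2.1 hp.out hp2 hv'.2.2 hx (f R) (f R).2
    have h4 := sub_eq_zero.2 (h2.trans h3.symm)
    rw [← h4]
    module
  obtain ⟨e', ρ', he', -⟩ := exists_rep (coe_disc_ne hD') p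
  -- a point with nonzero image
  let c : Fin 2 → ZMod p := fun _ => 1
  have hc : c ≠ 0 := by
    intro h
    have := congrFun h 0
    exact one_ne_zero this
  have hρ : (ρ' x).val *ᵥ ((ρ' x)⁻¹.val *ᵥ c) = c := by
    rw [Matrix.mulVec_mulVec, ← Units.val_mul, mul_inv_cancel, Units.val_one, Matrix.one_mulVec]
  obtain ⟨R', hR'⟩ := e'.surjective ((ρ' x)⁻¹.val *ᵥ c)
  obtain ⟨R, rfl⟩ := f.surjective R'
  have h5 := congrArg e' (key R)
  rw [map_zsmul, he', hR', hρ, map_zero, ← Int.cast_smul_eq_zsmul (ZMod p)] at h5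
  have h6 := congrFun h5 0
  rw [Pi.smul_apply, Pi.zero_apply, smul_eq_mul, mul_one] at h6
  exact (ZMod.intCast_zmod_eq_zero_iff_dvd _ _).1 h6

theorem finite_absNorm (N : ℕ) :
    {v : HeightOneSpectrum (𝓞 K) | Ideal.absNorm v.asIdeal ≤ N}.Finite := by
  have h : {I : Ideal (𝓞 K) | Ideal.absNorm I ≤ N}.Finite := Ideal.finite_setOf_absNorm_le _
  refine Set.Finite.of_finite_image (f := fun v : HeightOneSpectrum (𝓞 K) => v.asIdeal)
    (h.subset ?_) ?_
  · rintro _ ⟨v, hv, rfl⟩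
    exact hv
  · intro v _ w _ hvw
    exact HeightOneSpectrum.ext hvw

/-- cofinite sets -/
theorem ugt_of_finite {S : Set (HeightOneSpectrum (𝓞 K))} (h : Sᶜ.Finite) {c : ℝ} (hc : c < 1) :
    UGT S c := by
  have h1 : Tendsto (dens (fun v => v ∈ S)) atTop (𝓝 1) := by
    have h2 := dens_finite h
    have h3 : ∀ N, dens (fun _ : HeightOneSpectrum (𝓞 K) => True) N -
        dens (fun v => v ∈ Sᶜ) N ≤ dens (fun v => v ∈ S) N := by
      intro N
      have h4 := Pool.Agent.W528.Ord.dens_or (fun v => v ∈ S) (fun v => v ∈ Sᶜ) N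
      have h5 : dens (fun _ : HeightOneSpectrum (𝓞 K) => True) N ≤
          dens (fun v => v ∈ S ∨ v ∈ Sᶜ) N := by
        apply Pool.Agent.W528.Ord.dens_mono
        intro v _
        exact em _
      linarith
    have h6 : ∀ N, dens (fun v => v ∈ S) N ≤ dens (fun _ : HeightOneSpectrum (𝓞 K) => True) N := by
      intro N
      exact Pool.Agent.W528.Ord.dens_mono (fun _ _ => trivial) N
    have h7 := dens_all (K := K)
    have h8 := h7.sub h2
    rw [sub_zero] at h8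
    exact tendsto_of_tendsto_of_tendsto_of_le_of_le h8 h7 h3 h6
  exact ugt_of_tendsto h1 hc

end Pool.Agent.H502.EC
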